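import Pool.Agent.Q197.TQ.Det
import Pool.Agent.Helper923.HMertens

/-!
# Many good integers `k`
-/

set_option autoImplicit false
set_option linter.unusedSectionVars false

namespace Pool.Agent.Q197.TQ

open Finset Filter
open scoped Topology

/-- The primes in `(y, z]`. -/
def Pz (y z : ℕ) : Finset ℕ := (Ioc y z).filter Nat.Prime

open Classical in
noncomputable def F1 (n p : ℕ) : Finset ℕ := (Icc 1 (n - 3)).filter (fun k => Odd k ∧ p ∣ k)

open Classical in
noncomputable def F2 (n p : ℕ) : Finset ℕ := (Icc 1 (n - 3)).filter (fun k => Odd k ∧ p ∣ n - k)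

theorem F1_card {n p : ℕ} (hp : Odd p) (hn : 3 ≤ n) : (n : ℝ) / (2 * p) - 2 ≤ (F1 n p).card := by
  classical
  have hp0 : 0 < p := hp.pos
  have h1 : (((n - 3) / p + 1) / 2) ≤ (F1 n p).card := by
    have h2 : (range (((n - 3) / p + 1) / 2)).card ≤ (F1 n p).card := by
      refine card_le_card_of_injOn (fun i => p * (2 * i + 1)) (fun i hi => ?_) (fun i _ j _ h => ?_)
      · rw [mem_coe, mem_range] at hi
        unfold F1
        rw [mem_coe, mem_filter, mem_Icc]
        have h3 : 2 * i + 1 ≤ (n - 3) / p := by omega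
        have h4 : p * (2 * i + 1) ≤ n - 3 := by
          rw [mul_comm]
          exact (Nat.le_div_iff_mul_le hp0).1 h3
        have h5 : 0 < p * (2 * i + 1) := by positivity
        exact ⟨⟨h5, h4⟩, hp.mul ⟨i, rfl⟩, dvd_mul_right _ _⟩
      · have := Nat.eq_of_mul_eq_mul_left hp0 h
        omega
    rwa [card_range] at h2
  have h2 : ((n - 3) / p : ℕ) ≤ 2 * (((n - 3) / p + 1) / 2) := by omega
  have h3 : (((n - 3) / p : ℕ) : ℝ) ≤ 2 * ((F1 n p).card : ℝ) := by
    exact_mod_cast h2.trans (Nat.mul_le_mul_left 2 h1)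
  have h4 : ((n - 3 : ℕ) : ℝ) / p < (((n - 3) / p : ℕ) : ℝ) + 1 := by
    have := Nat.lt_floor_add_one (((n - 3 : ℕ) : ℝ) / p)
    rwa [Nat.floor_div_eq_div] at this
  have h5 : ((n - 3 : ℕ) : ℝ) = n - 3 := by
    push_cast [hn]
    ring
  have hpr : (1 : ℝ) ≤ p := by exact_mod_cast hp0
  rw [h5] at h4
  have h6 : (3 : ℝ) / p ≤ 3 := by
    rw [div_le_iff₀ (by linarith)]
    linarith
  have h7 : ((n : ℝ) - 3) / p = n / p - 3 / p := sub_div _ _ _
  have h8 : (n : ℝ) / (2 * p) = (n / p) / 2 := by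
    field_simp
  rw [h8]
  linarith

theorem F2_card {n p : ℕ} (hp : Odd p) (hp3 : 3 ≤ p) (hn : 3 ≤ n) : (n : ℝ) / (2 * p) - 2 ≤ (F2 n p).card := by
  classical
  have hp0 : 0 < p := hp.pos
  obtain ⟨e, he1, he2, hpar⟩ : ∃ e : ℕ, 1 ≤ e ∧ e ≤ 2 ∧ (n + 1) % 2 = e % 2 := by
    rcases Nat.even_or_odd n with h | h
    · obtain ⟨i, hi⟩ := h
      exact ⟨1, by omega, by omega, by omega⟩
    · obtain ⟨i, hi⟩ := h
      exact ⟨2, by omega, by omega, by omega⟩
  have h1 : (((n - 1) / p + 2 - e) / 2) ≤ (F2 n p).card := by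
    have h2 : (range (((n - 1) / p + 2 - e) / 2)).card ≤ (F2 n p).card := by
      refine card_le_card_of_injOn (fun i => n - p * (2 * i + e)) (fun i hi => ?_) (fun i hi j hj h => ?_)
      · rw [mem_coe, mem_range] at hi
        unfold F2
        rw [mem_coe, mem_filter, mem_Icc]
        have h3 : 2 * i + e ≤ (n - 1) / p := by omega
        have h4 : p * (2 * i + e) ≤ n - 1 := by
          rw [mul_comm]
          exact (Nat.le_div_iff_mul_le hp0).1 h3
        have h5 : 3 ≤ p * (2 * i + e) := by nlinarith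
        obtain ⟨j, hj⟩ := hp
        beta_reduce
        refine ⟨⟨by omega, by omega⟩, ?_, ?_⟩
        · rw [Nat.odd_iff]
          have h6 : p * (2 * i + e) % 2 = e % 2 := by
            rw [hj, show (2 * j + 1) * (2 * i + e) = 2 * (j * (2 * i + e) + i) + e by ring]
            omega
          omega
        · have : n - (n - p * (2 * i + e)) = p * (2 * i + e) := by omega
          rw [this]
          exact dvd_mul_right _ _
      · rw [mem_coe, mem_range] at hi hj
        have h3 : ∀ i, i < ((n - 1) / p + 2 - e) / 2 → p * (2 * i + e) ≤ n - 1 := by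
          intro i hi
          have h3 : 2 * i + e ≤ (n - 1) / p := by omega
          rw [mul_comm]
          exact (Nat.le_div_iff_mul_le hp0).1 h3
        have h4 := h3 i hi
        have h5 := h3 j hj
        have h6 : p * (2 * i + e) = p * (2 * j + e) := by
          simp only at h
          omega
        have := Nat.eq_of_mul_eq_mul_left hp0 h6
        omega
    rwa [card_range] at h2
  have h2 : ((n - 1) / p : ℕ) ≤ 2 * (((n - 1) / p + 2 - e) / 2) + 1 := by omega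
  have h3 : (((n - 1) / p : ℕ) : ℝ) ≤ 2 * ((F2 n p).card : ℝ) + 1 := by
    have : (n - 1) / p ≤ 2 * (F2 n p).card + 1 := by omega
    exact_mod_cast this
  have h4 : ((n - 1 : ℕ) : ℝ) / p < (((n - 1) / p : ℕ) : ℝ) + 1 := by
    have := Nat.lt_floor_add_one (((n - 1 : ℕ) : ℝ) / p)
    rwa [Nat.floor_div_eq_div] at this
  have h5 : ((n - 1 : ℕ) : ℝ) = n - 1 := by
    push_cast [show 1 ≤ n by omega]
    ring
  have hpr : (1 : ℝ) ≤ p := by exact_mod_cast hp0
  rw [h5] at h4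
  have h6 : (1 : ℝ) / p ≤ 1 := by
    rw [div_le_iff₀ (by linarith)]
    linarith
  have h7 : ((n : ℝ) - 1) / p = n / p - 1 / p := sub_div _ _ _
  have h8 : (n : ℝ) / (2 * p) = (n / p) / 2 := by
    field_simp
  rw [h8]
  linarith

theorem sum_pz {n y z : ℕ} (F : ℕ → Finset ℕ) (hF : ∀ p ∈ Pz y z, (n : ℝ) / (2 * p) - 2 ≤ (F p).card)
    (hd : ∀ p ∈ Pz y z, ∀ r ∈ Pz y z, p ≠ r → Disjoint (F p) (F r)) :
    (n : ℝ) / 2 * (∑ p ∈ Pz y z, 1 / (p : ℝ)) - 2 * z ≤ (((Pz y z).biUnion F).card : ℝ) := by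
  classical
  rw [card_biUnion hd]
  push_cast
  have h1 : ∑ p ∈ Pz y z, ((n : ℝ) / (2 * p) - 2) ≤ ∑ p ∈ Pz y z, ((F p).card : ℝ) := sum_le_sum hF
  refine le_trans ?_ h1
  rw [sum_sub_distrib, mul_sum, sum_const, nsmul_eq_mul]
  have h2 : ((Pz y z).card : ℝ) ≤ z := by
    have h3 : (Pz y z).card ≤ (Ioc y z).card := card_filter_le _ _
    rw [Nat.card_Ioc] at h3
    exact_mod_cast h3.trans (Nat.sub_le _ _)
  have h3 : ∑ p ∈ Pz y z, (n : ℝ) / 2 * (1 / (p : ℝ)) = ∑ p ∈ Pz y z, (n : ℝ) / (2 * p) := by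
    refine sum_congr rfl (fun p _ => ?_)
    rw [div_mul_div_comm, mul_one]
  rw [h3]
  linarith

open Classical in
/-- The good integers. -/
noncomputable def GK (n y z : ℕ) : Finset ℕ := (Icc 1 (n - 3)).filter (fun k => Good n y z k)

theorem GK_card {n y z : ℕ} (hn : 3 ≤ n) (hy : 3 ≤ y) (hyn : n ≤ y * y) :
    (n : ℝ) * (∑ p ∈ Pz y z, 1 / (p : ℝ)) - n / 2 - 4 * z ≤ ((GK n y z).card : ℝ) := by
  classical
  have hpz : ∀ p ∈ Pz y z, p.Prime ∧ y < p ∧ p ≤ z ∧ Odd p := by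
    intro p hp
    unfold Pz at hp
    rw [mem_filter, mem_Ioc] at hp
    exact ⟨hp.2, hp.1.1, hp.1.2, hp.2.odd_of_ne_two (by omega)⟩
  have hbig : ∀ p ∈ Pz y z, ∀ r ∈ Pz y z, p ≠ r → ∀ m, 1 ≤ m → m ≤ n → p ∣ m → r ∣ m → False := by
    intro p hp r hr hne m hm hmn h1 h2
    obtain ⟨a1, a2, _⟩ := hpz p hp
    obtain ⟨b1, b2, _⟩ := hpz r hr
    have h3 : p * r ∣ m := ((Nat.coprime_primes a1 b1).2 hne).mul_dvd_of_dvd_of_dvd h1 h2
    have h4 := Nat.le_of_dvd hm h3
    have h5 : y * y < p * r := Nat.mul_lt_mul'' a2 b2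
    omega
  have h1 := sum_pz (n := n) (y := y) (z := z) (F1 n) (fun p hp => F1_card (hpz p hp).2.2.2 hn) (fun p hp r hr hne => by
    rw [disjoint_left]
    intro k hk hk2
    unfold F1 at hk hk2
    rw [mem_filter, mem_Icc] at hk hk2
    exact hbig p hp r hr hne k hk.1.1 (by omega) hk.2.2 hk2.2.2)
  have h2 := sum_pz (n := n) (y := y) (z := z) (F2 n) (fun p hp => F2_card (hpz p hp).2.2.2 (by have := (hpz p hp).2.1; omega) hn)
    (fun p hp r hr hne => by
      rw [disjoint_left]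
      intro k hk hk2
      unfold F2 at hk hk2
      rw [mem_filter, mem_Icc] at hk hk2
      exact hbig p hp r hr hne (n - k) (by omega) (by omega) hk.2.2 hk2.2.2)
  have hodd : ((Icc 1 (n - 3)).filter (fun k => Odd k)).card ≤ n / 2 := by
    have h3 : ((Icc 1 (n - 3)).filter (fun k => Odd k)).card ≤ (range (n / 2)).card := by
      refine card_le_card_of_injOn (fun k => k / 2) (fun k hk => ?_) (fun k hk j hj h => ?_)
      · rw [mem_coe, mem_filter, mem_Icc] at hk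
        rw [mem_coe, mem_range]
        obtain ⟨i, hi⟩ := hk.2
        simp only
        omega
      · rw [mem_coe, mem_filter, mem_Icc] at hk hj
        obtain ⟨i, hi⟩ := hk.2
        obtain ⟨i', hi'⟩ := hj.2
        simp only at h
        omega
    rwa [card_range] at h3
  have hsub1 : (Pz y z).biUnion (F1 n) ⊆ (Icc 1 (n - 3)).filter (fun k => Odd k) := by
    intro k hk
    rw [mem_biUnion] at hk
    obtain ⟨p, _, hk⟩ := hk
    unfold F1 at hk
    rw [mem_filter] at hk ⊢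
    exact ⟨hk.1, hk.2.1⟩
  have hsub2 : (Pz y z).biUnion (F2 n) ⊆ (Icc 1 (n - 3)).filter (fun k => Odd k) := by
    intro k hk
    rw [mem_biUnion] at hk
    obtain ⟨p, _, hk⟩ := hk
    unfold F2 at hk
    rw [mem_filter] at hk ⊢
    exact ⟨hk.1, hk.2.1⟩
  have hint : (Pz y z).biUnion (F1 n) ∩ (Pz y z).biUnion (F2 n) ⊆ GK n y z := by
    intro k hk
    rw [mem_inter, mem_biUnion, mem_biUnion] at hk
    obtain ⟨⟨p, hp, h3⟩, r, hr, h4⟩ := hk
    unfold F1 at h3
    unfold F2 at h4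
    rw [mem_filter] at h3 h4
    unfold GK
    rw [mem_filter]
    exact ⟨h3.1, h3.2.1, ⟨p, (hpz p hp).1, (hpz p hp).2.1, (hpz p hp).2.2.1, h3.2.2⟩,
      ⟨r, (hpz r hr).1, (hpz r hr).2.1, (hpz r hr).2.2.1, h4.2.2⟩⟩
  have h3 := card_union_add_card_inter ((Pz y z).biUnion (F1 n)) ((Pz y z).biUnion (F2 n))
  have h4 := card_le_card (union_subset hsub1 hsub2)
  have h5 := card_le_card hint
  have h6 : (((Pz y z).biUnion (F1 n)).card : ℝ) + ((Pz y z).biUnion (F2 n)).card ≤ (n / 2 : ℕ) + (GK n y z).card := by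
    have : ((Pz y z).biUnion (F1 n)).card + ((Pz y z).biUnion (F2 n)).card ≤ n / 2 + (GK n y z).card := by omega
    exact_mod_cast this
  have h7 : ((n / 2 : ℕ) : ℝ) ≤ n / 2 := Nat.cast_div_le
  linarith

/-- The lower bound for the large prime factors. -/
noncomputable def yy (n : ℕ) : ℕ := ⌊(n : ℝ) ^ (0.55 : ℝ)⌋₊

/-- The upper bound for the large prime factors. -/
noncomputable def zz (n : ℕ) : ℕ := ⌈(n : ℝ) ^ (0.99 : ℝ)⌉₊

theorem pow_top {s : ℝ} (hs : 0 < s) : Tendsto (fun n : ℕ => (n : ℝ) ^ s) atTop atTop :=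
  (tendsto_rpow_atTop hs).comp tendsto_natCast_atTop_atTop

theorem pow_small {s t : ℝ} (C : ℝ) (hst : s < t) : ∀ᶠ n : ℕ in atTop, C * (n : ℝ) ^ s ≤ (n : ℝ) ^ t := by
  filter_upwards [(pow_top (sub_pos.2 hst)).eventually_ge_atTop C, eventually_gt_atTop 0] with n h1 h2
  have hn : (0 : ℝ) < n := by exact_mod_cast h2
  have h3 : (n : ℝ) ^ t = (n : ℝ) ^ (t - s) * (n : ℝ) ^ s := by
    rw [← Real.rpow_add hn]
    congr 1
    ring
  rw [h3]
  exact mul_le_mul_of_nonneg_right h1 (by positivity)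

theorem log_18 : (0.58 : ℝ) ≤ Real.log 1.8 := by
  have h1 : Real.exp 29 ≤ (1.8 : ℝ) ^ 50 := by
    have h2 : Real.exp 29 = Real.exp 1 ^ 29 := by
      rw [← Real.exp_nat_mul]
      norm_num
    rw [h2]
    have h3 : Real.exp 1 ^ 29 ≤ (2.7182818286 : ℝ) ^ 29 := pow_le_pow_left₀ (Real.exp_pos 1).le Real.exp_one_lt_d9.le _
    refine h3.trans ?_
    norm_num
  have h4 := Real.log_le_log (Real.exp_pos _) h1
  rw [Real.log_exp, Real.log_pow] at h4
  push_cast at h4
  linarith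

theorem yy_facts : ∀ᶠ n : ℕ in atTop, 3 ≤ yy n ∧ n ≤ yy n * yy n ∧ (n : ℝ) ^ (0.55 : ℝ) ≤ 2 * yy n := by
  filter_upwards [(pow_top (s := 0.55) (by norm_num)).eventually_ge_atTop 4, pow_small (s := 1) (t := 1.1) 4 (by norm_num),
    eventually_gt_atTop 0] with n h1 h2 h3
  have hn : (0 : ℝ) < n := by exact_mod_cast h3
  have h4 : (n : ℝ) ^ (0.55 : ℝ) < yy n + 1 := Nat.lt_floor_add_one _
  have h5 : (n : ℝ) ^ (0.55 : ℝ) ≤ 2 * yy n := by linarith
  have h6 : (n : ℝ) ^ (0.55 : ℝ) * (n : ℝ) ^ (0.55 : ℝ) = (n : ℝ) ^ (1.1 : ℝ) := by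
    rw [← Real.rpow_add hn]
    norm_num
  refine ⟨?_, ?_, h5⟩
  · have : (3 : ℝ) < yy n + 1 := by linarith
    have : 3 < yy n + 1 := by exact_mod_cast this
    omega
  · rw [Real.rpow_one] at h2
    have h7 : (n : ℝ) ≤ yy n * yy n := by nlinarith [Real.rpow_nonneg hn.le (0.55 : ℝ)]
    exact_mod_cast h7

theorem good_many : ∀ᶠ n : ℕ in atTop, (n : ℝ) * (7 / 100) ≤ ((GK n (yy n) (zz n)).card : ℝ) := by
  obtain ⟨C, hC0, hC⟩ := Pool.Agent.Helper923.HMertens.mertens_ratio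
  have hly : Tendsto (fun n : ℕ => Real.log (yy n)) atTop atTop := by
    have h1 : Tendsto yy atTop atTop := tendsto_nat_floor_atTop.comp (pow_top (s := 0.55) (by norm_num))
    exact (Real.tendsto_log_atTop.comp tendsto_natCast_atTop_atTop).comp h1
  filter_upwards [yy_facts, hly.eventually_ge_atTop (500 * C + 1), pow_small (s := 0.99) (t := 1) 2000 (by norm_num),
    eventually_ge_atTop 3, (pow_top (s := 0.99) (by norm_num)).eventually_ge_atTop 1,
    pow_small (s := 0.55) (t := 0.99) 1 (by norm_num)] with n h1 h2 h3 h4 h5 h5'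
  obtain ⟨hy3, hyn, hy2⟩ := h1
  have hn : (3 : ℝ) ≤ n := by exact_mod_cast h4
  have hn0 : (0 : ℝ) < n := lt_of_lt_of_le (by norm_num) hn
  have h6 := GK_card (n := n) (y := yy n) (z := zz n) h4 hy3 hyn
  have hyz : yy n ≤ zz n := by
    have e1 : (yy n : ℝ) ≤ (n : ℝ) ^ (0.55 : ℝ) := Nat.floor_le (by positivity)
    have e2 : (n : ℝ) ^ (0.99 : ℝ) ≤ zz n := Nat.le_ceil _
    have : (yy n : ℝ) ≤ zz n := by linarith
    exact_mod_cast this
  have h7 := hC (yy n) (zz n) (by omega) hyz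
  have hl0 : 0 < Real.log (yy n) := by linarith
  have hlogn : 0 < Real.log (n : ℝ) := Real.log_pos (lt_of_lt_of_le (by norm_num) hn)
  have h8 : (1.8 : ℝ) ≤ Real.log (zz n) / Real.log (yy n) := by
    rw [le_div_iff₀ hl0]
    have e1 : Real.log (yy n) ≤ 0.55 * Real.log n := by
      rw [← Real.log_rpow hn0]
      exact Real.log_le_log (by exact_mod_cast (by omega : 0 < yy n)) (Nat.floor_le (by positivity))
    have e2 : 0.99 * Real.log n ≤ Real.log (zz n) := by
      rw [← Real.log_rpow hn0]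
      exact Real.log_le_log (by positivity) (Nat.le_ceil _)
    linarith
  have h9 := Real.log_le_log (by norm_num) h8
  have h10 := log_18
  have h11 : C / Real.log (yy n) ≤ 1 / 500 := by
    rw [div_le_div_iff₀ hl0 (by norm_num)]
    linarith
  have h12 : (0.578 : ℝ) ≤ ∑ p ∈ Pz (yy n) (zz n), 1 / (p : ℝ) := by
    have e1 := (abs_le.1 h7).1
    have e2 : ∑ p ∈ Pz (yy n) (zz n), (1 : ℝ) / p = ∑ p ∈ (Finset.Ioc (yy n) (zz n)).filter Nat.Prime, (1 : ℝ) / p := rfl
    rw [e2]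
    linarith
  have h13 : (zz n : ℝ) ≤ 2 * (n : ℝ) ^ (0.99 : ℝ) := by
    have : (zz n : ℝ) < (n : ℝ) ^ (0.99 : ℝ) + 1 := Nat.ceil_lt_add_one (by positivity)
    linarith
  rw [Real.rpow_one] at h3
  nlinarith

end Pool.Agent.Q197.TQ
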