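import Mathlib

/-!
# The values `φ(k) + φ(n - k) / 2 + 1`
-/

set_option autoImplicit false
set_option linter.unusedSectionVars false

namespace Pool.Agent.Q197.TQ

open Finset

/-- `q(n, k)`. -/
def qv (n k : ℕ) : ℕ := Nat.totient k + Nat.totient (n - k) / 2 + 1

theorem prod_ne_disj {P P' : Finset ℕ} (hP : ∀ p ∈ P, p.Prime) (hP' : ∀ p ∈ P', p.Prime) (h2 : 2 ∉ P)
    (hd : Disjoint P P') : (∏ p ∈ P', (p - 1)) * ∏ p ∈ P, p ≠ 2 * ((∏ p ∈ P, (p - 1)) * ∏ p ∈ P', p) := by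
  intro he
  by_cases h : ∃ r ∈ P ∪ P', 3 ≤ r
  · obtain ⟨r0, hr0, hr03⟩ := h
    obtain ⟨r, hr, hmax⟩ := (P ∪ P').exists_max_image id ⟨r0, hr0⟩
    simp only [id] at hmax
    have hr3 : 3 ≤ r := hr03.trans (hmax r0 hr0)
    rw [mem_union] at hr
    rcases hr with hr | hr
    · have hrp := hP r hr
      have h1 : r ∣ (∏ p ∈ P', (p - 1)) * ∏ p ∈ P, p := (dvd_prod_of_mem _ hr).mul_left _
      rw [he, hrp.dvd_mul, hrp.dvd_mul, hrp.prime.dvd_finsetProd_iff, hrp.prime.dvd_finsetProd_iff] at h1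
      rcases h1 with h1 | ⟨p, hp, h1⟩ | ⟨p, hp, h1⟩
      · have := Nat.le_of_dvd (by norm_num) h1
        omega
      · have h3 := (hP p hp).two_le
        have h4 := Nat.le_of_dvd (by omega) h1
        have h5 := hmax p (mem_union_left _ hp)
        omega
      · have h3 := (Nat.prime_dvd_prime_iff_eq hrp (hP' p hp)).1 h1
        subst h3
        exact (disjoint_left.1 hd) hr hp
    · have hrp := hP' r hr
      have h1 : r ∣ 2 * ((∏ p ∈ P, (p - 1)) * ∏ p ∈ P', p) := ((dvd_prod_of_mem _ hr).mul_left _).mul_left _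
      rw [← he, hrp.dvd_mul, hrp.prime.dvd_finsetProd_iff, hrp.prime.dvd_finsetProd_iff] at h1
      rcases h1 with ⟨p, hp, h1⟩ | ⟨p, hp, h1⟩
      · have h3 := (hP' p hp).two_le
        have h4 := Nat.le_of_dvd (by omega) h1
        have h5 := hmax p (mem_union_right _ hp)
        omega
      · have h3 := (Nat.prime_dvd_prime_iff_eq hrp (hP p hp)).1 h1
        subst h3
        exact (disjoint_left.1 hd) hp hr
  · push Not at h
    have hPe : P = ∅ := by
      rw [eq_empty_iff_forall_notMem]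
      intro p hp
      have h3 := h p (mem_union_left _ hp)
      have h4 := (hP p hp).two_le
      have : p = 2 := by omega
      rw [this] at hp
      exact h2 hp
    rw [hPe, prod_empty, prod_empty, mul_one, one_mul] at he
    have hP2 : P' ⊆ {2} := by
      intro p hp
      have h3 := h p (mem_union_right _ hp)
      have h4 := (hP' p hp).two_le
      rw [mem_singleton]
      omega
    rcases subset_singleton_iff.1 hP2 with h3 | h3
    · rw [h3] at he
      simp at he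
    · rw [h3] at he
      simp at he

theorem prod_ne {P P' : Finset ℕ} (hP : ∀ p ∈ P, p.Prime) (hP' : ∀ p ∈ P', p.Prime) (h2 : 2 ∉ P) :
    (∏ p ∈ P', (p - 1)) * ∏ p ∈ P, p ≠ 2 * ((∏ p ∈ P, (p - 1)) * ∏ p ∈ P', p) := by
  intro he
  refine prod_ne_disj (P := P \ P') (P' := P' \ P) (fun p hp => hP p (mem_sdiff.1 hp).1)
    (fun p hp => hP' p (mem_sdiff.1 hp).1) (fun h => h2 (mem_sdiff.1 h).1) ?_ ?_
  · rw [disjoint_left]
    intro p h1 h3
    exact (mem_sdiff.1 h3).2 (mem_sdiff.1 h1).1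
  · have e : ∀ f : ℕ → ℕ, ∏ p ∈ P, f p = (∏ p ∈ P ∩ P', f p) * ∏ p ∈ P \ P', f p := fun f =>
      (prod_inter_mul_prod_sdiff P P' f).symm
    have e' : ∀ f : ℕ → ℕ, ∏ p ∈ P', f p = (∏ p ∈ P ∩ P', f p) * ∏ p ∈ P' \ P, f p := fun f => by
      rw [inter_comm]
      exact (prod_inter_mul_prod_sdiff P' P f).symm
    rw [e (fun p => p), e (fun p => p - 1), e' (fun p => p), e' (fun p => p - 1)] at he
    have h3 : 0 < (∏ p ∈ P ∩ P', p) * ∏ p ∈ P ∩ P', (p - 1) := by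
      refine Nat.mul_pos (prod_pos (fun p hp => ?_)) (prod_pos (fun p hp => ?_))
      · exact (hP p (mem_inter.1 hp).1).pos
      · have := (hP p (mem_inter.1 hp).1).two_le
        omega
    refine Nat.eq_of_mul_eq_mul_left h3 ?_
    linear_combination he

/-- The determinant is not zero. -/
theorem det_ne {m m' : ℕ} (hm : Odd m) (hm' : 1 ≤ m') : m * Nat.totient m' ≠ 2 * (m' * Nat.totient m) := by
  intro he
  have hm0 : 0 < m := hm.pos
  refine prod_ne (P := m.primeFactors) (P' := m'.primeFactors) (fun p hp => Nat.prime_of_mem_primeFactors hp)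
    (fun p hp => Nat.prime_of_mem_primeFactors hp) (fun h => ?_) ?_
  · have h1 := Nat.dvd_of_mem_primeFactors h
    rcases hm with ⟨i, hi⟩
    omega
  · have h1 := Nat.totient_mul_prod_primeFactors m
    have h2 := Nat.totient_mul_prod_primeFactors m'
    have h3 : 0 < m * m' := Nat.mul_pos hm0 hm'
    refine Nat.eq_of_mul_eq_mul_left h3 ?_
    generalize (∏ p ∈ m.primeFactors, p) = P at h1 ⊢
    generalize (∏ p ∈ m'.primeFactors, p) = P' at h2 ⊢
    generalize (∏ p ∈ m.primeFactors, (p - 1)) = a at h1 ⊢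
    generalize (∏ p ∈ m'.primeFactors, (p - 1)) = b at h2 ⊢
    calc m * m' * (b * P) = m * (m' * b) * P := by ring
      _ = m * (Nat.totient m' * P') * P := by rw [h2]
      _ = (m * Nat.totient m') * (P * P') := by ring
      _ = 2 * (m' * Nat.totient m) * (P * P') := by rw [he]
      _ = 2 * m' * (Nat.totient m * P) * P' := by ring
      _ = 2 * m' * (m * a) * P' := by rw [h1]
      _ = m * m' * (2 * (a * P')) := by ring

theorem fiber_inj {n k₁ k₂ p₁ p₂ r₁ r₂ m m' : ℕ} (hm : Odd m) (hm' : 1 ≤ m') (h1 : k₁ = m * p₁) (h2 : k₂ = m * p₂)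
    (h3 : n - k₁ = m' * r₁) (h4 : n - k₂ = m' * r₂) (hk₁ : k₁ < n) (hk₂ : k₂ < n) (hp₁ : p₁.Prime) (hp₂ : p₂.Prime)
    (hr₁ : r₁.Prime) (hr₂ : r₂.Prime) (hp₁m : ¬ p₁ ∣ m) (hp₂m : ¬ p₂ ∣ m) (hr₁m : ¬ r₁ ∣ m') (hr₂m : ¬ r₂ ∣ m')
    (hr₁o : Odd r₁) (hr₂o : Odd r₂) (hq : qv n k₁ = qv n k₂) : k₁ = k₂ := by
  have e : ∀ {a b : ℕ}, a.Prime → ¬ a ∣ b → Nat.totient (b * a) = Nat.totient b * (a - 1) := by
    intro a b ha hab
    rw [Nat.totient_mul ((Nat.coprime_comm).1 ((Nat.Prime.coprime_iff_not_dvd ha).2 hab)), Nat.totient_prime ha]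
  unfold qv at hq
  rw [h3, h4] at hq
  rw [h1, h2] at hq
  rw [e hp₁ hp₁m, e hp₂ hp₂m, e hr₁ hr₁m, e hr₂ hr₂m] at hq
  obtain ⟨i₁, hi₁⟩ := hr₁o
  obtain ⟨i₂, hi₂⟩ := hr₂o
  have e1 : Nat.totient m' * (r₁ - 1) / 2 = Nat.totient m' * i₁ := by
    rw [hi₁, show 2 * i₁ + 1 - 1 = i₁ * 2 by omega, ← mul_assoc, Nat.mul_div_cancel _ (by norm_num)]
  have e2 : Nat.totient m' * (r₂ - 1) / 2 = Nat.totient m' * i₂ := by
    rw [hi₂, show 2 * i₂ + 1 - 1 = i₂ * 2 by omega, ← mul_assoc, Nat.mul_div_cancel _ (by norm_num)]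
  rw [e1, e2] at hq
  have hpp1 : p₁ - 1 + 1 = p₁ := Nat.sub_add_cancel hp₁.one_le
  have hpp2 : p₂ - 1 + 1 = p₂ := Nat.sub_add_cancel hp₂.one_le
  have e3 : k₁ + m' * r₁ = k₂ + m' * r₂ := by omega
  have hqz : (Nat.totient m : ℤ) * (p₁ - 1) + Nat.totient m' * i₁ = Nat.totient m * (p₂ - 1) + Nat.totient m' * i₂ := by
    have h5 : ((p₁ - 1 : ℕ) : ℤ) = (p₁ : ℤ) - 1 := by
      have := hp₁.one_le
      push_cast [this]
      ring
    have h6 : ((p₂ - 1 : ℕ) : ℤ) = (p₂ : ℤ) - 1 := by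
      have := hp₂.one_le
      push_cast [this]
      ring
    rw [← h5, ← h6]
    have : Nat.totient m * (p₁ - 1) + Nat.totient m' * i₁ = Nat.totient m * (p₂ - 1) + Nat.totient m' * i₂ := by omega
    exact_mod_cast this
  have hlz : (m : ℤ) * p₁ + m' * (2 * i₁ + 1) = m * p₂ + m' * (2 * i₂ + 1) := by
    rw [h1, h2, hi₁, hi₂] at e3
    exact_mod_cast e3
  have hdet : (m : ℤ) * Nat.totient m' - 2 * (m' * Nat.totient m) ≠ 0 := by
    intro h
    refine det_ne hm hm' ?_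
    have : (m : ℤ) * Nat.totient m' = 2 * (m' * Nat.totient m) := by linarith
    exact_mod_cast this
  have hfin : ((m : ℤ) * Nat.totient m' - 2 * (m' * Nat.totient m)) * (p₁ - p₂) = 0 := by
    linear_combination (Nat.totient m' : ℤ) * hlz - 2 * (m' : ℤ) * hqz
  rcases mul_eq_zero.1 hfin with h | h
  · exact absurd h hdet
  · have : p₁ = p₂ := by omega
    rw [h1, h2, this]

/-- The integers `k` which we use. -/
def Good (n y z k : ℕ) : Prop := Odd k ∧ (∃ p, p.Prime ∧ y < p ∧ p ≤ z ∧ p ∣ k) ∧ ∃ p, p.Prime ∧ y < p ∧ p ≤ z ∧ p ∣ n - k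

/-- The multiplicity. -/
theorem fiber_card {n y z : ℕ} (hy : 2 ≤ y) (hyn : n ≤ y * y) (K : Finset ℕ)
    (hK : ∀ k ∈ K, Good n y z k ∧ 1 ≤ k ∧ k < n) (v : ℕ) (hv : ∀ k ∈ K, qv n k = v) : K.card ≤ (n / y) * (n / y) := by
  classical
  have hex : ∀ k ∈ K, ∃ w : ℕ × ℕ × ℕ × ℕ, w.1.Prime ∧ y < w.1 ∧ k = w.2.1 * w.1 ∧ w.2.2.1.Prime ∧ y < w.2.2.1 ∧
      n - k = w.2.2.2 * w.2.2.1 := by
    intro k hk
    obtain ⟨⟨_, ⟨p, hp, hyp, _, a, ha⟩, ⟨r, hr, hyr, _, b, hb⟩⟩, _, _⟩ := hK k hk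
    exact ⟨(p, a, r, b), hp, hyp, by rw [mul_comm]; exact ha, hr, hyr, by rw [mul_comm]; exact hb⟩
  choose! w hw using hex
  have hbound : ∀ k ∈ K, (1 ≤ (w k).2.1 ∧ (w k).2.1 ≤ n / y) ∧ (1 ≤ (w k).2.2.2 ∧ (w k).2.2.2 ≤ n / y) := by
    intro k hk
    obtain ⟨h1, h2, h3, h4, h5, h6⟩ := hw k hk
    obtain ⟨_, hk1, hkn⟩ := hK k hk
    have e1 : 1 ≤ (w k).2.1 := by
      rw [Nat.one_le_iff_ne_zero]
      intro h
      rw [h, zero_mul] at h3
      omega
    have e2 : 1 ≤ (w k).2.2.2 := by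
      rw [Nat.one_le_iff_ne_zero]
      intro h
      rw [h, zero_mul] at h6
      omega
    refine ⟨⟨e1, ?_⟩, e2, ?_⟩
    · rw [Nat.le_div_iff_mul_le (by omega)]
      calc (w k).2.1 * y ≤ (w k).2.1 * (w k).1 := Nat.mul_le_mul_left _ h2.le
        _ ≤ n := by omega
    · rw [Nat.le_div_iff_mul_le (by omega)]
      calc (w k).2.2.2 * y ≤ (w k).2.2.2 * (w k).2.2.1 := Nat.mul_le_mul_left _ h5.le
        _ ≤ n := by omega
  have hlt : ∀ {a b : ℕ}, y < b → a * b ≤ n → 1 ≤ a → ¬ b ∣ a := by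
    intro a b hb hab ha hd
    have h1 := Nat.le_of_dvd (by omega) hd
    have h2 : y * y < a * b := Nat.mul_lt_mul'' (by omega) hb
    omega
  have hinj : Set.InjOn (fun k => ((w k).2.1, (w k).2.2.2)) (K : Set ℕ) := by
    intro k₁ hk₁ k₂ hk₂ he
    rw [mem_coe] at hk₁ hk₂
    simp only [Prod.mk.injEq] at he
    obtain ⟨a1, a2, a3, a4, a5, a6⟩ := hw k₁ hk₁
    obtain ⟨b1, b2, b3, b4, b5, b6⟩ := hw k₂ hk₂
    obtain ⟨c1, c2⟩ := hbound k₁ hk₁
    obtain ⟨d1, d2⟩ := hbound k₂ hk₂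
    obtain ⟨⟨o1, _⟩, f1, f2⟩ := hK k₁ hk₁
    obtain ⟨⟨o2, _⟩, g1, g2⟩ := hK k₂ hk₂
    have hodd : Odd (w k₁).2.1 := by
      rw [a3, Nat.odd_mul] at o1
      exact o1.1
    refine fiber_inj hodd c2.1 a3 (by rw [he.1]; exact b3) a6 (by rw [he.2]; exact b6) f2 g2 a1 b1 a4 b4
      (hlt a2 (by rw [← a3]; omega) c1.1) ?_ (hlt a5 (by rw [← a6]; omega) c2.1) ?_ ?_ ?_ ((hv k₁ hk₁).trans (hv k₂ hk₂).symm)
    · rw [he.1]
      exact hlt b2 (by rw [← b3]; omega) d1.1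
    · rw [he.2]
      exact hlt b5 (by rw [← b6]; omega) d2.1
    · exact a4.odd_of_ne_two (by omega)
    · exact b4.odd_of_ne_two (by omega)
  have hmaps : ∀ k ∈ K, ((w k).2.1, (w k).2.2.2) ∈ Icc 1 (n / y) ×ˢ Icc 1 (n / y) := by
    intro k hk
    rw [mem_product, mem_Icc, mem_Icc]
    exact hbound k hk
  have h1 := card_le_card_of_injOn (fun k => ((w k).2.1, (w k).2.2.2)) hmaps hinj
  rwa [card_product, Nat.card_Icc, Nat.add_sub_cancel] at h1

/-- a product over integers `≥ 2` -/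
theorem prod_one_sub_ge (s : Finset ℕ) (h : ∀ x ∈ s, 2 ≤ x) : 1 / ((s.card : ℝ) + 1) ≤ ∏ x ∈ s, (1 - 1 / (x : ℝ)) := by
  induction s using Finset.induction_on_max with
  | empty => simp
  | insert a s has ih =>
    have h1 := ih (fun x hx => h x (mem_insert_of_mem hx))
    have ha : a ∉ s := fun hmem => lt_irrefl a (has a hmem)
    rw [prod_insert ha, card_insert_of_notMem ha]
    have h2 : s ⊆ Ico 2 a := fun x hx => by
      rw [mem_Ico]
      exact ⟨h x (mem_insert_of_mem hx), has x hx⟩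
    have h3 := card_le_card h2
    rw [Nat.card_Ico] at h3
    have h4 : 2 ≤ a := h a (mem_insert_self _ _)
    have h5 : s.card + 2 ≤ a := by omega
    have h6 : ((s.card : ℝ) + 2) ≤ a := by exact_mod_cast h5
    have h7 : ((s.card : ℝ) + 1) / ((s.card : ℝ) + 2) ≤ 1 - 1 / (a : ℝ) := by
      have h8 : (1 : ℝ) / a ≤ 1 / ((s.card : ℝ) + 2) := one_div_le_one_div_of_le (by positivity) h6
      have h9 : ((s.card : ℝ) + 1) / ((s.card : ℝ) + 2) = 1 - 1 / ((s.card : ℝ) + 2) := by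
        field_simp
        ring
      rw [h9]
      linarith
    push_cast
    calc 1 / ((s.card : ℝ) + 1 + 1) =
        ((s.card : ℝ) + 1) / ((s.card : ℝ) + 2) * (1 / ((s.card : ℝ) + 1)) := by
          field_simp
          ring
      _ ≤ _ := mul_le_mul h7 h1 (by positivity) (le_trans (by positivity) h7)

/-- a lower bound for the totient -/
theorem phi_low (n : ℕ) (hn : 1 ≤ n) : (n : ℝ) ≤ Nat.totient n * (1 + 2 * Real.log n) := by
  have hn0 : (0 : ℝ) < n := by exact_mod_cast hn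
  have h1 := prod_one_sub_ge n.primeFactors (fun x hx => (Nat.prime_of_mem_primeFactors hx).two_le)
  have h2 : (Nat.totient n : ℝ) = n * ∏ p ∈ n.primeFactors, (1 - 1 / (p : ℝ)) := by
    have h := Nat.totient_eq_mul_prod_factors n
    have h' : ((Nat.totient n : ℚ) : ℝ) = ((n * ∏ p ∈ n.primeFactors, (1 - (p : ℚ)⁻¹) : ℚ) : ℝ) := by
      rw [h]
    push_cast at h'
    rw [h']
    congr 1
    refine prod_congr rfl fun p _ => ?_
    rw [one_div]
  have h3 : (n.primeFactors.card : ℝ) ≤ 2 * Real.log n := by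
    have h4 : 2 ^ n.primeFactors.card ≤ n := by
      calc 2 ^ n.primeFactors.card = ∏ p ∈ n.primeFactors, 2 := by rw [prod_const]
        _ ≤ ∏ p ∈ n.primeFactors, p :=
            prod_le_prod' fun p hp => (Nat.prime_of_mem_primeFactors hp).two_le
        _ ≤ n := Nat.le_of_dvd hn (Nat.prod_primeFactors_dvd n)
    have h5 : (n.primeFactors.card : ℝ) * Real.log 2 ≤ Real.log n := by
      rw [← Real.log_pow]
      exact Real.log_le_log (by positivity) (by exact_mod_cast h4)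
    have h6 := Real.log_two_gt_d9
    have h7 : (0 : ℝ) ≤ n.primeFactors.card := Nat.cast_nonneg _
    nlinarith
  have h4 : (1 : ℝ) ≤ (∏ p ∈ n.primeFactors, (1 - 1 / (p : ℝ))) *
      ((n.primeFactors.card : ℝ) + 1) := by
    rw [div_le_iff₀ (by positivity)] at h1
    exact h1
  have h5 : 0 ≤ ∏ p ∈ n.primeFactors, (1 - 1 / (p : ℝ)) := le_trans (by positivity) h1
  rw [h2]
  calc (n : ℝ) = n * 1 := (mul_one _).symm
    _ ≤ n * ((∏ p ∈ n.primeFactors, (1 - 1 / (p : ℝ))) * ((n.primeFactors.card : ℝ) + 1)) :=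
        mul_le_mul_of_nonneg_left h4 hn0.le
    _ ≤ n * ((∏ p ∈ n.primeFactors, (1 - 1 / (p : ℝ))) * (1 + 2 * Real.log n)) := by
        refine mul_le_mul_of_nonneg_left (mul_le_mul_of_nonneg_left ?_ h5) hn0.le
        linarith
    _ = _ := by ring

end Pool.Agent.Q197.TQ
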