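import Pool.Agent.Q197.TQ.Count

/-!
# Layers
-/

set_option autoImplicit false
set_option linter.unusedSectionVars false

namespace Pool.Agent.Q197.TQ

open Finset Filter
open scoped Topology

/-- The length of the blocks. -/
noncomputable def hh (n : ℕ) : ℕ := ⌊(n : ℝ) ^ (0.95 : ℝ)⌋₊

/-- The integers `k` which we use. -/
noncomputable def KK (n : ℕ) : Finset ℕ := (GK n (yy n) (zz n)).filter (fun k => n ≤ 100 * k)

/-- The multiplicity of a value. -/
noncomputable def mult (n v : ℕ) : ℕ := ((KK n).filter (fun k => qv n k = v)).card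

/-- The values in a block with a given multiplicity. -/
noncomputable def VV (n b i : ℕ) : Finset ℕ := (Ico (b * hh n) ((b + 1) * hh n)).filter (fun v => i < mult n v)

theorem sum_blocks (f : ℕ → ℕ) (H B : ℕ) : ∑ v ∈ range (B * H), f v = ∑ b ∈ range B, ∑ v ∈ Ico (b * H) ((b + 1) * H), f v := by
  induction B with
  | zero => simp
  | succ B ih =>
    rw [sum_range_succ, ← ih, range_eq_Ico, range_eq_Ico]
    refine (sum_Ico_consecutive f (by omega) ?_).symm
    exact Nat.mul_le_mul_right H (by omega)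

open Classical in
/-- The layers. -/
theorem layers (n B L : ℕ) (P : ℕ → Prop) (hB : ∀ k ∈ KK n, qv n k < B * hh n) (hL : ∀ v, mult n v ≤ L) :
    ((KK n).filter (fun k => P (qv n k))).card = ∑ b ∈ range B, ∑ i ∈ range L, ((VV n b i).filter P).card := by
  have h1 : ((KK n).filter (fun k => P (qv n k))).card = ∑ v ∈ range (B * hh n), (if P v then mult n v else 0) := by
    rw [card_eq_sum_card_fiberwise (f := fun k => qv n k) (t := range (B * hh n)) (fun k hk => by
      rw [mem_coe, mem_filter] at hk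
      rw [mem_coe, mem_range]
      exact hB k hk.1)]
    refine sum_congr rfl (fun v _ => ?_)
    split_ifs with h
    · unfold mult
      congr 1
      ext k
      rw [mem_filter, mem_filter, mem_filter]
      constructor
      · rintro ⟨⟨h2, _⟩, h3⟩
        exact ⟨h2, h3⟩
      · rintro ⟨h2, h3⟩
        exact ⟨⟨h2, by rw [h3]; exact h⟩, h3⟩
    · rw [card_eq_zero, eq_empty_iff_forall_notMem]
      intro k hk
      rw [mem_filter, mem_filter] at hk
      exact h (by rw [← hk.2]; exact hk.1.2)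
  rw [h1, sum_blocks]
  refine sum_congr rfl (fun b _ => ?_)
  have h2 : ∀ v, (if P v then mult n v else 0) = ∑ i ∈ range L, (if i < mult n v ∧ P v then 1 else 0) := by
    intro v
    split_ifs with h
    · simp only [h, and_true]
      rw [← card_filter]
      have : (range L).filter (fun i => i < mult n v) = range (mult n v) := by
        ext i
        rw [mem_filter, mem_range, mem_range]
        have := hL v
        omega
      rw [this, card_range]
    · simp [h]
  simp_rw [h2]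
  rw [sum_comm]
  refine sum_congr rfl (fun i _ => ?_)
  rw [← card_filter]
  unfold VV
  rw [filter_filter]

theorem mem_KK {n k : ℕ} : k ∈ KK n ↔ ((1 ≤ k ∧ k ≤ n - 3) ∧ Good n (yy n) (zz n) k) ∧ n ≤ 100 * k := by
  classical
  unfold KK GK
  rw [mem_filter, mem_filter, mem_Icc]

theorem KK_card : ∀ᶠ n : ℕ in atTop, (n : ℝ) * (59 / 1000) ≤ ((KK n).card : ℝ) := by
  classical
  filter_upwards [good_many, eventually_ge_atTop 1000] with n h1 h2
  have h3 : (GK n (yy n) (zz n)).card ≤ (KK n).card + (range (n / 100 + 1)).card := by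
    have h4 : GK n (yy n) (zz n) ⊆ KK n ∪ range (n / 100 + 1) := by
      intro k hk
      rw [mem_union, mem_range]
      by_cases h : n ≤ 100 * k
      · left
        unfold KK
        rw [mem_filter]
        exact ⟨hk, h⟩
      · right
        omega
    exact (card_le_card h4).trans (card_union_le _ _)
  rw [card_range] at h3
  have h4 : ((GK n (yy n) (zz n)).card : ℝ) ≤ (KK n).card + ((n / 100 : ℕ) + 1) := by exact_mod_cast h3
  have h5 : ((n / 100 : ℕ) : ℝ) ≤ n / 100 := Nat.cast_div_le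
  have h6 : (1000 : ℝ) ≤ n := by exact_mod_cast h2
  linarith

theorem qv_le {n k : ℕ} (hk : 1 ≤ k) (hkn : k + 3 ≤ n) : qv n k ≤ n := by
  unfold qv
  have h1 := Nat.totient_le k
  have h2 := Nat.totient_lt (n - k) (by omega)
  omega

theorem qv_ge {n k : ℕ} (hk : 1 ≤ k) (hkn : k ≤ n) (hk2 : n ≤ 100 * k) : (n : ℝ) ≤ 100 * (qv n k * (1 + 2 * Real.log n)) := by
  have h1 := phi_low k hk
  have h2 : (Nat.totient k : ℝ) ≤ qv n k := by
    unfold qv
    exact_mod_cast (by omega : Nat.totient k ≤ Nat.totient k + Nat.totient (n - k) / 2 + 1)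
  have hk0 : (0 : ℝ) < k := by exact_mod_cast hk
  have h3 : Real.log k ≤ Real.log n := Real.log_le_log hk0 (by exact_mod_cast hkn)
  have h4 : 0 ≤ Real.log (k : ℝ) := Real.log_natCast_nonneg k
  have h5 : (n : ℝ) ≤ 100 * k := by exact_mod_cast hk2
  have h6 : (Nat.totient k : ℝ) * (1 + 2 * Real.log k) ≤ qv n k * (1 + 2 * Real.log n) :=
    mul_le_mul h2 (by linarith) (by linarith) (Nat.cast_nonneg _)
  linarith

theorem mult_le {n : ℕ} (hy : 2 ≤ yy n) (hyn : n ≤ yy n * yy n) (v : ℕ) : mult n v ≤ (n / yy n) * (n / yy n) := by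
  classical
  unfold mult
  refine fiber_card (z := zz n) hy hyn _ (fun k hk => ?_) v (fun k hk => ?_)
  · rw [mem_filter, mem_KK] at hk
    exact ⟨hk.1.1.2, hk.1.1.1.1, by have := hk.1.1.1.2; have := hk.1.1.1.1; omega⟩
  · rw [mem_filter] at hk
    exact hk.2

/-- The number of the values in the small layers. -/
theorem small_layers : ∀ᶠ n : ℕ in atTop, ∀ v, (mult n v : ℝ) ≤ 4 * (n : ℝ) ^ (0.9 : ℝ) := by
  filter_upwards [yy_facts, eventually_gt_atTop 0] with n h1 h2 v
  obtain ⟨hy3, hyn, hy2⟩ := h1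
  have hn : (0 : ℝ) < n := by exact_mod_cast h2
  have h3 := mult_le (n := n) (by omega) hyn v
  have h4 : ((n / yy n : ℕ) : ℝ) ≤ 2 * (n : ℝ) ^ (0.45 : ℝ) := by
    have e1 : ((n / yy n : ℕ) : ℝ) ≤ n / yy n := Nat.cast_div_le
    have hy0 : (0 : ℝ) < yy n := by exact_mod_cast (by omega : 0 < yy n)
    refine e1.trans ?_
    rw [div_le_iff₀ hy0]
    have e2 : (n : ℝ) = (n : ℝ) ^ (0.45 : ℝ) * (n : ℝ) ^ (0.55 : ℝ) := by
      rw [← Real.rpow_add hn]
      norm_num
    have e3 : 0 < (n : ℝ) ^ (0.45 : ℝ) := by positivity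
    calc (n : ℝ) = (n : ℝ) ^ (0.45 : ℝ) * (n : ℝ) ^ (0.55 : ℝ) := e2
      _ ≤ (n : ℝ) ^ (0.45 : ℝ) * (2 * yy n) := mul_le_mul_of_nonneg_left hy2 e3.le
      _ = _ := by ring
  have h5 : (mult n v : ℝ) ≤ ((n / yy n : ℕ) : ℝ) * ((n / yy n : ℕ) : ℝ) := by exact_mod_cast h3
  have h6 : (n : ℝ) ^ (0.45 : ℝ) * (n : ℝ) ^ (0.45 : ℝ) = (n : ℝ) ^ (0.9 : ℝ) := by
    rw [← Real.rpow_add hn]
    norm_num
  have h7 : (0 : ℝ) ≤ ((n / yy n : ℕ) : ℝ) := Nat.cast_nonneg _
  nlinarith

end Pool.Agent.Q197.TQ
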