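import Pool.Agent.Q197.TQ.Union
import Pool.Agent.Q197.CI.C971

/-!
# Many admissible integers
-/

set_option autoImplicit false
set_option linter.unusedSectionVars false

namespace Pool.Agent.Q197.TQ

open Finset Filter MeasureTheory ProbabilityTheory Pool.Agent.Q197.FM Pool.Agent.Q197.CI Pool.Agent.Q197.BH
  Pool.Agent.Q120.ET Pool.Agent.Q120.MF Pool.Agent.Q197.IT
open scoped Topology

/-- `v` is an element and all `a_v - v + h`, `h ∈ D`, are elements. -/
def GoodV (D : Finset ℤ) (S : Set ℕ) (v : ℕ) : Prop := v ∈ S ∧ ∀ h ∈ D, ((el S v : ℤ) - v + h).toNat ∈ S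

/-- The regularity of the elements. -/
def Reg (S : Set ℕ) (Q0 : ℕ) : Prop := S.Infinite ∧ (∀ a ∈ S, 3 ≤ a) ∧ ∀ Q, Q0 ≤ Q → 4 * Q ≤ el S Q ∧ el S Q ≤ Q ^ 2

theorem at_el {S : Set ℕ} (hS : S.Infinite) {Q H R v : ℕ} (hQ : 1 ≤ Q) (hv : Q ≤ v) (hvH : v < Q + H)
    (hrk : H ≤ rk S (el S Q) (el S Q + R)) : At S (el S Q) R (v - Q) (el S v) := by
  have h1 := isEl_el hS hQ
  have h2 := isEl_el hS (show 1 ≤ v by omega)
  have h3 := el_mono' hS hQ hv
  have h4 : rk S (el S Q) (el S v) = v - Q := by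
    have h5 := ct_add_rk' (S := S) h1.1 h3
    have h6 := h1.2.2
    have h7 := h2.2.2
    omega
  refine ⟨h3, ?_, h2.2.1, h4⟩
  by_contra hcon
  push Not at hcon
  have := rk_mono S (el S Q) hcon
  omega
where
  ct_add_rk' {S : Set ℕ} {lo x : ℕ} (hlo : 3 ≤ lo) (hx : lo ≤ x) : ct S lo + rk S lo x = ct S x :=
    ct_add_rk hlo hx

open Classical in
/-- One layer. -/
theorem one_layer {D : Finset ℤ} {n b i : ℕ} {S : Set ℕ} (hS : S.Infinite) (hQ : 1 ≤ b * hh n)
    (hF : Fine D n b i (el S (b * hh n)) S) :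
    (VV n b i).card * ta n ^ (D.card + 1) / 4 ≤ (((VV n b i).filter (GoodV D S)).card : ℝ) := by
  obtain ⟨⟨h1, _⟩, h2⟩ := hF
  refine h2.trans ?_
  unfold suc sc
  have h3 : (hit S 0 (VV n b i) id).filter (fun v => ∀ a ∈ Wd D (fun v => pf S (el S (b * hh n)) (RR n) (v - b * hh n)) v, a ∈ S) ⊆
      (VV n b i).filter (GoodV D S) := by
    intro v hv
    rw [mem_filter, mem_hit, zero_add, id] at hv
    obtain ⟨⟨hv1, hv2⟩, hv3⟩ := hv
    rw [mem_filter]
    refine ⟨hv1, hv2, fun h hh' => hv3 _ ?_⟩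
    have h4 : b * hh n ≤ v ∧ v < b * hh n + hh n := by
      unfold VV at hv1
      rw [mem_filter, mem_Ico, add_mul, one_mul] at hv1
      exact hv1.1
    have h5 := at_el hS hQ h4.1 h4.2 h1
    unfold Wd
    rw [mem_image]
    refine ⟨h, hh', ?_⟩
    beta_reduce
    rw [pf_eq h5]
  exact_mod_cast card_le_card h3

/-- **The count.** -/
theorem count {D : Finset ℤ} {s Q0 : ℕ} : ∀ᶠ n : ℕ in atTop, ∀ S : Set ℕ, Reg S Q0 →
    (∀ b ≤ n, ∀ i < n, ∀ x ≤ n ^ 2, Adm s n b i x → Fine D n b i x S) →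
    (n : ℝ) / (80 * (3 * Real.log n) ^ (D.card + 1)) ≤
      ({k : ℕ | 1 ≤ k ∧ k + 2 < n ∧ GoodV D S (qv n k)}.ncard : ℝ) := by
  classical
  filter_upwards [KK_card, small_layers, hh_facts, ll_facts, log_nat_top.eventually_ge_atTop 1,
    pow_small (s := 0.97) (t := 1) 2000 (by norm_num), pow_small (s := 0.9) (t := 1) 8 (by norm_num),
    log_pow_small (4000 * (s + Q0 + 3)) 2 (s := 0.05) (by norm_num), (pow_top (s := 0.95) (by norm_num)).eventually_ge_atTop 4,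
    eventually_ge_atTop 8, (pow_top (s := 0.05) (by norm_num)).eventually_ge_atTop 1]
    with n h1 h2 h3 h4 h5 h6 h7 h8 h9 h10 h11 S hReg hFine
  obtain ⟨hS, hS3, hQ0⟩ := hReg
  obtain ⟨hh1, hh2, hh3⟩ := h3
  obtain ⟨l1, l2, l3⟩ := h4
  have hn8 : (8 : ℝ) ≤ n := by exact_mod_cast h10
  have hn0 : (0 : ℝ) < n := lt_of_lt_of_le (by norm_num) hn8
  rw [Real.rpow_one] at h6 h7
  obtain ⟨L, hL⟩ : ∃ L : ℝ, L = Real.log n := ⟨_, rfl⟩
  rw [← hL] at h5 h8 l2 l3 ⊢
  obtain ⟨B, hB⟩ : ∃ B : ℕ, B = n / hh n + 1 := ⟨_, rfl⟩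
  obtain ⟨M, hM⟩ : ∃ M : ℕ, M = ⌊4 * (n : ℝ) ^ (0.9 : ℝ)⌋₊ := ⟨_, rfl⟩
  have hMr : (M : ℝ) ≤ 4 * (n : ℝ) ^ (0.9 : ℝ) := by rw [hM]; exact Nat.floor_le (by positivity)
  have hMn : M < n := by
    have h12 : (M : ℝ) < n := by
      refine lt_of_le_of_lt hMr ?_
      have : 0 < (n : ℝ) ^ (0.9 : ℝ) := by positivity
      linarith
    exact_mod_cast h12
  have hmult : ∀ v, mult n v ≤ M := by
    intro v
    rw [hM]
    exact Nat.le_floor (h2 v)
  have hqn : ∀ k ∈ KK n, qv n k ≤ n := by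
    intro k hk
    rw [mem_KK] at hk
    exact qv_le hk.1.1.1 (by have := hk.1.1.1; have := hk.1.1.2; omega)
  have hBn : n < B * hh n := by
    rw [hB, add_mul, one_mul]
    have := Nat.div_add_mod n (hh n)
    have := Nat.mod_lt n (show 0 < hh n by omega)
    nlinarith
  have hBlt : ∀ k ∈ KK n, qv n k < B * hh n := fun k hk => lt_of_le_of_lt (hqn k hk) hBn
  have hlay := layers n B M (GoodV D S) hBlt hmult
  have hlay0 := layers n B M (fun _ => True) hBlt hmult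
  simp only [filter_true] at hlay0
  -- the constant
  obtain ⟨c, hc⟩ : ∃ c : ℝ, c = ta n ^ (D.card + 1) / 4 := ⟨_, rfl⟩
  have hc0 : 0 < c := by
    rw [hc]
    unfold ta
    have : 0 < Real.log (n : ℝ) := by rw [← hL]; linarith
    positivity
  -- a layer which is not small
  have hone : ∀ b ∈ range B, ∀ i ∈ range M, c * ((VV n b i).card : ℝ) - c * (n : ℝ) ^ (0.02 : ℝ) ≤
      (((VV n b i).filter (GoodV D S)).card : ℝ) := by
    intro b hb i hi
    rw [mem_range] at hb hi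
    rcases le_or_gt ((n : ℝ) ^ (0.02 : ℝ)) ((VV n b i).card : ℝ) with h12 | h12
    · -- the layer is large
      have hV0 : (VV n b i).Nonempty := by
        rw [← card_pos]
        have : (0 : ℝ) < (VV n b i).card := lt_of_lt_of_le (by positivity) h12
        exact_mod_cast this
      obtain ⟨v, hv⟩ := hV0
      unfold VV at hv
      rw [mem_filter, mem_Ico, add_mul, one_mul] at hv
      obtain ⟨⟨hv1, hv2⟩, hv3⟩ := hv
      obtain ⟨k, hk⟩ : ((KK n).filter (fun k => qv n k = v)).Nonempty := by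
        rw [← card_pos]
        unfold mult at hv3
        omega
      rw [mem_filter] at hk
      obtain ⟨hk, hkv⟩ := hk
      have hvn : v ≤ n := by rw [← hkv]; exact hqn k hk
      have hvbig : (n : ℝ) ≤ 100 * (v * (1 + 2 * L)) := by
        have hk' := hk
        rw [mem_KK] at hk'
        rw [← hkv, hL]
        exact qv_ge hk'.1.1.1 (by have := hk'.1.1.2; omega) hk'.2
      obtain ⟨Q, hQ⟩ : ∃ Q, Q = b * hh n := ⟨_, rfl⟩
      rw [← hQ] at hv1 hv2
      -- the position of the block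
      have hQbig : hh n * (2 * ll n + 2) + (s + Q0 + 3) ≤ Q := by
        have e1 : (v : ℝ) ≤ Q + hh n := by exact_mod_cast hv2.le
        have e2 : (n : ℝ) = (n : ℝ) ^ (0.95 : ℝ) * (n : ℝ) ^ (0.05 : ℝ) := by
          rw [← Real.rpow_add hn0]
          norm_num
        obtain ⟨a, ha⟩ : ∃ a : ℝ, a = (n : ℝ) ^ (0.95 : ℝ) := ⟨_, rfl⟩
        obtain ⟨a', ha'⟩ : ∃ a' : ℝ, a' = (n : ℝ) ^ (0.05 : ℝ) := ⟨_, rfl⟩
        rw [← ha, ← ha'] at e2
        rw [← ha] at hh2 hh3 h9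
        rw [← ha'] at h8 h11
        have hs0 : (0 : ℝ) ≤ (s : ℝ) + Q0 := by positivity
        have hL0 : 0 < L := by linarith
        have e3 : (n : ℝ) ≤ 300 * L * v := by
          have : (1 : ℝ) + 2 * L ≤ 3 * L := by linarith
          have hv0 : (0 : ℝ) ≤ v := Nat.cast_nonneg v
          nlinarith
        have e4 : a * (4000 * (s + Q0 + 3) * L ^ 2) ≤ n := by
          rw [e2]
          exact mul_le_mul_of_nonneg_left h8 (by linarith)
        have e5 : a * (4000 * (s + Q0 + 3) * L ^ 2) ≤ 300 * L * v := e4.trans e3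
        have e6 : a * (13 * (s + Q0 + 3) * L) ≤ v := by
          have e7 : 300 * L * (a * (13 * (s + Q0 + 3) * L)) ≤ 300 * L * v := by
            refine le_trans ?_ e5
            have : 0 ≤ a * ((s + Q0 + 3) * L ^ 2) := by positivity
            nlinarith
          exact le_of_mul_le_mul_left e7 (by positivity)
        have e8 : (hh n : ℝ) * (2 * ll n + 2) + (s + Q0 + 3) + hh n ≤ v := by
          refine le_trans ?_ e6
          have e9 : (hh n : ℝ) * (2 * ll n + 2) ≤ a * (16 * L) := by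
            refine mul_le_mul hh2 (by linarith) (by positivity) (by linarith)
          have e10 : (s : ℝ) + Q0 + 3 ≤ a * ((s + Q0 + 3) * L) := by
            have : 1 ≤ a * L := by nlinarith
            nlinarith
          have e11 : (hh n : ℝ) ≤ a * L := by nlinarith
          have e12 : a * (13 * (s + Q0 + 3) * L) = 13 * (a * ((s + Q0 + 3) * L)) := by ring
          have e13 : 3 * (a * L) ≤ a * ((s + Q0 + 3) * L) := by
            have : 0 ≤ (s + Q0 : ℝ) * (a * L) := by positivity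
            nlinarith
          rw [e12]
          nlinarith
        have e14 : (hh n : ℝ) * (2 * ll n + 2) + (s + Q0 + 3) ≤ Q := by linarith
        exact_mod_cast e14
      have hQ0Q : Q0 ≤ Q := by
        have : 0 ≤ hh n * (2 * ll n + 2) := Nat.zero_le _
        omega
      obtain ⟨q1, q2⟩ := hQ0 Q hQ0Q
      have hmul1 : hh n * (2 * ll n + 2) = 2 * (hh n * ll n) + 2 * hh n := by ring
      have hQn : Q ≤ n := hv1.trans hvn
      have hadm : Adm s n b i (el S Q) := by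
        refine ⟨h12, ?_, ?_, ?_⟩
        · rw [← hQ]
          unfold RR
          omega
        · rw [← hQ]
          omega
        · rw [← hQ]
          exact hQn
      have hbn : b ≤ n := by
        by_contra hcon
        push Not at hcon
        have : n * hh n < b * hh n := Nat.mul_lt_mul_of_pos_right hcon hh1
        have : n * 1 ≤ n * hh n := Nat.mul_le_mul_left n hh1
        omega
      have hxn : el S Q ≤ n ^ 2 := q2.trans (Nat.pow_le_pow_left hQn 2)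
      have hfine := hFine b hbn i (by omega) (el S Q) hxn hadm
      rw [hQ] at hfine
      have h13 := one_layer hS (by omega) hfine
      have h14 : 0 ≤ c * (n : ℝ) ^ (0.02 : ℝ) := by positivity
      have h15 : c * ((VV n b i).card : ℝ) = (VV n b i).card * ta n ^ (D.card + 1) / 4 := by rw [hc]; ring
      linarith
    · have h13 : (0 : ℝ) ≤ (((VV n b i).filter (GoodV D S)).card : ℝ) := Nat.cast_nonneg _
      have h14 : c * ((VV n b i).card : ℝ) ≤ c * (n : ℝ) ^ (0.02 : ℝ) := mul_le_mul_of_nonneg_left h12.le hc0.le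
      linarith
  -- the sum
  have hsum : c * ((KK n).card : ℝ) - B * (M * (c * (n : ℝ) ^ (0.02 : ℝ))) ≤ (((KK n).filter (fun k => GoodV D S (qv n k))).card : ℝ) := by
    rw [hlay, hlay0]
    push_cast
    calc c * (∑ b ∈ range B, ∑ i ∈ range M, ((VV n b i).card : ℝ)) - B * (M * (c * (n : ℝ) ^ (0.02 : ℝ)))
        = ∑ b ∈ range B, ∑ i ∈ range M, (c * ((VV n b i).card : ℝ) - c * (n : ℝ) ^ (0.02 : ℝ)) := by
          simp only [sum_sub_distrib, mul_sum, sum_const, card_range, nsmul_eq_mul]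
      _ ≤ _ := sum_le_sum (fun b hb => sum_le_sum (fun i hi => hone b hb i hi))
  have hBr : (B : ℝ) ≤ 3 * (n : ℝ) ^ (0.05 : ℝ) := by
    rw [hB]
    push_cast
    have hhh0 : (0 : ℝ) < hh n := by exact_mod_cast hh1
    have e1 : ((n / hh n : ℕ) : ℝ) ≤ n / hh n := Nat.cast_div_le
    have e2 : (n : ℝ) / hh n ≤ 2 * (n : ℝ) ^ (0.05 : ℝ) := by
      rw [div_le_iff₀ hhh0]
      have e3 : (n : ℝ) = (n : ℝ) ^ (0.05 : ℝ) * (n : ℝ) ^ (0.95 : ℝ) := by
        rw [← Real.rpow_add hn0]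
        norm_num
      have e4 : 0 < (n : ℝ) ^ (0.05 : ℝ) := by positivity
      calc (n : ℝ) = (n : ℝ) ^ (0.05 : ℝ) * (n : ℝ) ^ (0.95 : ℝ) := e3
        _ ≤ (n : ℝ) ^ (0.05 : ℝ) * (2 * hh n) := mul_le_mul_of_nonneg_left hh3 e4.le
        _ = _ := by ring
    linarith
  have hBM : (B : ℝ) * (M * (c * (n : ℝ) ^ (0.02 : ℝ))) ≤ c * (12 * (n : ℝ) ^ (0.97 : ℝ)) := by
    have e1 : (B : ℝ) * M ≤ 3 * (n : ℝ) ^ (0.05 : ℝ) * (4 * (n : ℝ) ^ (0.9 : ℝ)) :=
      mul_le_mul hBr hMr (Nat.cast_nonneg _) (by positivity)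
    have e2 : (n : ℝ) ^ (0.97 : ℝ) = (n : ℝ) ^ (0.05 : ℝ) * (n : ℝ) ^ (0.9 : ℝ) * (n : ℝ) ^ (0.02 : ℝ) := by
      rw [← Real.rpow_add hn0, ← Real.rpow_add hn0]
      norm_num
    rw [e2]
    have e3 : 0 ≤ c * (n : ℝ) ^ (0.02 : ℝ) := by positivity
    calc (B : ℝ) * (M * (c * (n : ℝ) ^ (0.02 : ℝ))) = (B * M) * (c * (n : ℝ) ^ (0.02 : ℝ)) := by ring
      _ ≤ (3 * (n : ℝ) ^ (0.05 : ℝ) * (4 * (n : ℝ) ^ (0.9 : ℝ))) * (c * (n : ℝ) ^ (0.02 : ℝ)) := mul_le_mul_of_nonneg_right e1 e3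
      _ = _ := by ring
  have hmain : c * (n / 20) ≤ (((KK n).filter (fun k => GoodV D S (qv n k))).card : ℝ) := by
    refine le_trans ?_ hsum
    have e1 : c * (n / 20) ≤ c * (((KK n).card : ℝ) - 12 * (n : ℝ) ^ (0.97 : ℝ)) := by
      refine mul_le_mul_of_nonneg_left ?_ hc0.le
      linarith
    have e2 : c * (((KK n).card : ℝ) - 12 * (n : ℝ) ^ (0.97 : ℝ)) = c * (KK n).card - c * (12 * (n : ℝ) ^ (0.97 : ℝ)) := by ring
    linarith
  have hceq : (n : ℝ) / (80 * (3 * L) ^ (D.card + 1)) = c * (n / 20) := by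
    rw [hc]
    unfold ta
    rw [← hL, div_pow, one_pow]
    have : (3 * L) ^ (D.card + 1) ≠ 0 := by positivity
    field_simp
    norm_num
  rw [hceq]
  refine hmain.trans ?_
  have hfin : {k : ℕ | 1 ≤ k ∧ k + 2 < n ∧ GoodV D S (qv n k)}.Finite :=
    (Set.finite_Iio n).subset (fun k hk => by
      rw [Set.mem_Iio]
      have := hk.2.1
      omega)
  have hsub : (((KK n).filter (fun k => GoodV D S (qv n k)) : Finset ℕ) : Set ℕ) ⊆
      {k : ℕ | 1 ≤ k ∧ k + 2 < n ∧ GoodV D S (qv n k)} := by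
    intro k hk
    rw [mem_coe, mem_filter, mem_KK] at hk
    exact ⟨hk.1.1.1.1, by have := hk.1.1.1.1; have := hk.1.1.1.2; omega, hk.2⟩
  have h12 := Set.ncard_le_ncard hsub hfin
  rw [Set.ncard_coe_finset] at h12
  exact_mod_cast h12

variable {Ω : Type*} [MeasurableSpace Ω] {μ : Measure Ω} [IsProbabilityMeasure μ] {A : Ω → Set ℕ}

theorem el_r3 (A : Ω → Set ℕ) (ω : Ω) (m : ℕ) : el (r3 A ω) m = el (A ω) m := by
  unfold el
  congr 1
  funext j
  simp [r3]

theorem ae_reg (hA : IsCramer μ A) : ∀ᵐ ω ∂μ, ∃ Q0 : ℕ, Reg (r3 A ω) Q0 := by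
  filter_upwards [ct_law hA, ae_el hA] with ω hct hel
  obtain ⟨hinf, hel2⟩ := hel
  have hct2 : ∀ᶠ x : ℕ in atTop, (ct (A ω) x : ℝ) ≤ x / 16 := by
    filter_upwards [hct.eventually_lt_const (show (1 : ℝ) < 2 by norm_num), log_nat_top.eventually_ge_atTop 32,
      eventually_ge_atTop 1] with x h2 h3 h4
    have hx0 : (0 : ℝ) < x := by exact_mod_cast h4
    rw [div_lt_iff₀ hx0] at h2
    have h5 : (ct (A ω) x : ℝ) * 32 ≤ ct (A ω) x * Real.log x := mul_le_mul_of_nonneg_left h3 (Nat.cast_nonneg _)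
    linarith
  have hS3 : (r3 A ω).Infinite := by
    have h1 : r3 A ω = A ω \ {n | n < 3} := by
      ext n
      simp [r3, and_comm]
    rw [h1]
    exact hinf.sdiff (Set.finite_lt_nat 3)
  obtain ⟨x1, hx1⟩ := eventually_atTop.1 hct2
  obtain ⟨m1, hm1⟩ := eventually_atTop.1 hel2
  refine ⟨x1 + m1 + 2, hS3, fun a ha => ha.1, fun Q hQ => ?_⟩
  refine ⟨?_, ?_⟩
  · by_contra hcon
    push Not at hcon
    have h1 := isEl_el hS3 (show 1 ≤ Q by omega)
    have h2 := hx1 (4 * Q) (by omega)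
    rw [← ct_r3 A ω] at h2
    have h3 := ct_mono (r3 A ω) (show el (r3 A ω) Q ≤ 4 * Q by omega)
    have h4 := h1.2.2
    have h5 : 16 * ct (r3 A ω) (4 * Q) ≤ 4 * Q := by
      have : (16 : ℝ) * ct (r3 A ω) (4 * Q) ≤ ((4 * Q : ℕ) : ℝ) := by linarith
      exact_mod_cast this
    omega
  · rw [el_r3]
    exact (hm1 Q (by omega)).2.2

/-- **The theorem.** -/
theorem main (hA : IsCramer μ A) : ∀ᵐ ω ∂μ, ∀ D : Finset ℤ, ∀ᶠ n : ℕ in atTop,
    (n : ℝ) / (80 * (3 * Real.log n) ^ (D.card + 1)) ≤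
      ({k : ℕ | 1 ≤ k ∧ k + 2 < n ∧ GoodV D (r3 A ω) (qv n k)}.ncard : ℝ) := by
  have h1 : ∀ D : Finset ℤ, ∀ᵐ ω ∂μ, ∀ᶠ n : ℕ in atTop,
      (n : ℝ) / (80 * (3 * Real.log n) ^ (D.card + 1)) ≤
        ({k : ℕ | 1 ≤ k ∧ k + 2 < n ∧ GoodV D (r3 A ω) (qv n k)}.ncard : ℝ) := by
    intro D
    obtain ⟨s, hs⟩ : ∃ s : ℕ, ∀ h ∈ D, |h| ≤ (s : ℤ) := by
      refine ⟨∑ h ∈ D, h.natAbs, fun h hh => ?_⟩
      have := single_le_sum (f := fun h : ℤ => h.natAbs) (fun i _ => Nat.zero_le _) hh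
      rw [← Int.natCast_natAbs]
      exact_mod_cast this
    filter_upwards [all_fine hA D hs, ae_reg hA] with ω h2 h3
    obtain ⟨Q0, hReg⟩ := h3
    filter_upwards [h2, count (D := D) (s := s) (Q0 := Q0)] with n h4 h5
    exact h5 _ hReg h4
  rw [← ae_all_iff] at h1
  exact h1

end Pool.Agent.Q197.TQ
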