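import Pool.Agent.Q197.IT.Chain

/-!
# Blocks of indices
-/

set_option autoImplicit false
set_option linter.unusedSectionVars false

namespace Pool.Agent.Q197.TQ

open Finset Filter MeasureTheory ProbabilityTheory Pool.Agent.Q197.FM Pool.Agent.Q197.CI Pool.Agent.Q197.BH
  Pool.Agent.Q120.ET Pool.Agent.Q120.MF Pool.Agent.Q197.IT
open scoped Topology

variable {Ω : Type*} [MeasurableSpace Ω] {μ : Measure Ω} [IsProbabilityMeasure μ] {A : Ω → Set ℕ}

theorem rk_succ {S : Set ℕ} {x b : ℕ} (hb : x ≤ b) (h : b ∈ S) : rk S x (b + 1) = rk S x b + 1 := by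
  classical
  unfold rk
  have h1 : Ico x (b + 1) = insert b (Ico x b) := by
    ext j
    rw [mem_insert, mem_Ico, mem_Ico]
    omega
  rw [h1, filter_insert, if_pos h, card_insert_of_notMem (by simp)]

theorem rk_succ_not {S : Set ℕ} {x b : ℕ} (h : b ∉ S) : rk S x (b + 1) = rk S x b := by
  classical
  unfold rk
  congr 1
  ext j
  rw [mem_filter, mem_filter, mem_Ico, mem_Ico]
  constructor
  · rintro ⟨⟨h1, h2⟩, h3⟩
    refine ⟨⟨h1, ?_⟩, h3⟩
    by_contra hcon
    have : j = b := by omega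
    rw [this] at h3
    exact h h3
  · rintro ⟨⟨h1, h2⟩, h3⟩
    exact ⟨⟨h1, by omega⟩, h3⟩

theorem rk_self (S : Set ℕ) (x : ℕ) : rk S x x = 0 := by
  classical
  unfold rk
  simp

theorem rk_mono (S : Set ℕ) (x : ℕ) {b c : ℕ} (h : b ≤ c) : rk S x b ≤ rk S x c := by
  classical
  unfold rk
  refine card_le_card (filter_subset_filter _ (fun j hj => ?_))
  rw [mem_Ico] at hj ⊢
  omega

/-- `b` is the element with `j` elements in `[x, b)`. -/
def At (U : Set ℕ) (x R j b : ℕ) : Prop := x ≤ b ∧ b < x + R ∧ b ∈ U ∧ rk U x b = j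

theorem exists_at {U : Set ℕ} {x R j : ℕ} (h : j < rk U x (x + R)) : ∃ b, At U x R j b := by
  classical
  have hex : ∃ i, j < rk U x (x + i) := ⟨R, h⟩
  obtain ⟨i, hi, hmin⟩ : ∃ i, j < rk U x (x + i) ∧ ∀ m < i, ¬ j < rk U x (x + m) :=
    ⟨Nat.find hex, Nat.find_spec hex, fun m hm => Nat.find_min hex hm⟩
  have hi0 : i ≠ 0 := by
    rintro rfl
    rw [add_zero, rk_self] at hi
    omega
  obtain ⟨m, rfl⟩ := Nat.exists_eq_succ_of_ne_zero hi0
  have h1 := hmin m (by omega)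
  have hmR : m < R := by
    by_contra hcon
    have := rk_mono U x (show x + R ≤ x + m by omega)
    omega
  rw [Nat.succ_eq_add_one, ← add_assoc] at hi
  by_cases hU : x + m ∈ U
  · rw [rk_succ (by omega) hU] at hi
    exact ⟨x + m, by omega, by omega, hU, by omega⟩
  · rw [rk_succ_not hU] at hi
    omega

theorem at_unique {U : Set ℕ} {x R j b c : ℕ} (hb : At U x R j b) (hc : At U x R j c) : b = c := by
  rcases lt_trichotomy b c with h | h | h
  · have := rk_lt (S := U) hb.1 hb.2.2.1 h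
    have h1 := hb.2.2.2
    have h2 := hc.2.2.2
    omega
  · exact h
  · have := rk_lt (S := U) hc.1 hc.2.2.1 h
    have h1 := hb.2.2.2
    have h2 := hc.2.2.2
    omega

/-- The position of the element number `j`. -/
noncomputable def pf (U : Set ℕ) (x R j : ℕ) : ℕ := sInf {b | At U x R j b}

theorem pf_eq {U : Set ℕ} {x R j b : ℕ} (hb : At U x R j b) : pf U x R j = b := by
  unfold pf
  have h1 : {b | At U x R j b} = {b} := by
    ext c
    rw [Set.mem_ofPred_eq, Set.mem_singleton_iff]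
    exact ⟨fun hc => at_unique hc hb, fun hc => by rw [hc]; exact hb⟩
  rw [h1, csInf_singleton]

theorem pf_at {U : Set ℕ} {x R j : ℕ} (h : j < rk U x (x + R)) : At U x R j (pf U x R j) := by
  obtain ⟨b, hb⟩ := exists_at h
  rw [pf_eq hb]
  exact hb

theorem at_loc (x R j b : ℕ) : Loc (Ico x (x + R)) (fun S => At S x R j b) := by
  intro S S' hS
  show At S x R j b = At S' x R j b
  unfold At
  by_cases h : x ≤ b ∧ b < x + R
  · have h1 : (b ∈ S ↔ b ∈ S') := hS b (mem_Ico.2 h)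
    have h2 : rk S x b = rk S' x b := rk_loc x b (x + R) h.2.le S S' hS
    rw [h1, h2]
  · have h1 : ∀ P : Prop, (x ≤ b ∧ b < x + R ∧ P) = False := by
      intro P
      refine propext ⟨fun h2 => h ⟨h2.1, h2.2.1⟩, fun h2 => h2.elim⟩
    rw [h1, h1]

theorem pf_loc (x R : ℕ) : Loc (Ico x (x + R)) (fun S => pf S x R) := by
  intro S S' hS
  have h : ∀ j b, At S x R j b = At S' x R j b := fun j b => at_loc x R j b S S' hS
  funext j
  show pf S x R j = pf S' x R j
  unfold pf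
  simp only [h]

/-- No long runs. -/
def NoRun (U : Set ℕ) (x R l : ℕ) : Prop := ∀ b, x ≤ b → b + l ≤ x + R → ∃ i < l, b + i ∉ U

theorem noRun_loc (x R l : ℕ) : Loc (Ico x (x + R)) (fun S => NoRun S x R l) := by
  intro S S' hS
  show NoRun S x R l = NoRun S' x R l
  unfold NoRun
  refine propext (forall_congr' (fun b => forall_congr' (fun hb => forall_congr' (fun hb2 => exists_congr (fun i => ?_)))))
  refine and_congr_right (fun hi => ?_)
  rw [hS (b + i) (mem_Ico.2 ⟨by omega, by omega⟩)]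

theorem rk_add {S : Set ℕ} {x b c : ℕ} (h1 : x ≤ b) (h2 : b ≤ c) : rk S x c = rk S x b + rk S b c := by
  classical
  unfold rk
  rw [← card_union_of_disjoint]
  · congr 1
    ext j
    simp only [mem_union, mem_filter, mem_Ico]
    constructor
    · rintro ⟨⟨h3, h4⟩, h5⟩
      rcases lt_or_ge j b with h6 | h6
      · exact Or.inl ⟨⟨h3, h6⟩, h5⟩
      · exact Or.inr ⟨⟨h6, h4⟩, h5⟩
    · rintro (⟨⟨h3, h4⟩, h5⟩ | ⟨⟨h3, h4⟩, h5⟩)
      · exact ⟨⟨h3, by omega⟩, h5⟩
      · exact ⟨⟨by omega, h4⟩, h5⟩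
  · rw [disjoint_left]
    intro j h3 h4
    rw [mem_filter, mem_Ico] at h3 h4
    omega

/-- Equal differences give a run. -/
theorem run_bound {U : Set ℕ} {x R l j j' b b' : ℕ} (hR : NoRun U x R l) (hb : At U x R j b) (hb' : At U x R j' b')
    (hj : j < j') (he : b + j' = b' + j) : j' < j + l := by
  classical
  by_contra hcon
  push Not at hcon
  obtain ⟨h1, h2, h3, h4⟩ := hb
  obtain ⟨g1, g2, g3, g4⟩ := hb'
  have hlt : b < b' := by omega
  have h5 := rk_add (S := U) h1 hlt.le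
  obtain ⟨i, hi, hiU⟩ := hR b h1 (by omega)
  have h6 : rk U b b' = b' - b := by omega
  apply hiU
  unfold rk at h6
  rw [← Nat.card_Ico b b'] at h6
  have h7 := (filter_card_eq h6) (b + i) (mem_Ico.2 ⟨by omega, by omega⟩)
  exact h7

theorem card_window {F : Finset ℕ} {l : ℕ} (hF : ∀ v ∈ F, ∀ v' ∈ F, v < v' → v' < v + l) (hl : 1 ≤ l) : F.card ≤ l := by
  rcases F.eq_empty_or_nonempty with h | h
  · rw [h, card_empty]
    omega
  · have h1 : F ⊆ Ico (F.min' h) (F.min' h + l) := by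
      intro v hv
      rw [mem_Ico]
      refine ⟨F.min'_le v hv, ?_⟩
      rcases (F.min'_le v hv).lt_or_eq with h2 | h2
      · exact hF _ (F.min'_mem h) v hv h2
      · omega
    have := card_le_card h1
    rw [Nat.card_Ico] at this
    omega

/-- The positions which shall be elements. -/
noncomputable def Wd (D : Finset ℤ) (b : ℕ → ℕ) (v : ℕ) : Finset ℕ := D.image (fun h : ℤ => ((b v : ℤ) - v + h).toNat)

/-- The last block. -/
theorem third (hA : IndepElems μ A) {Q H x R l s N : ℕ} {D : Finset ℤ} (hD : ∀ h ∈ D, |h| ≤ s) {τ : ℝ} (hτ : 0 < τ)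
    (hτ1 : τ ≤ 1) (hτN : ∀ a : ℕ, 3 ≤ a → a < N → τ ≤ μ.real {ω | a ∈ A ω}) {T : Finset ℕ} (hT : T ⊆ Ico Q (Q + H))
    {b : ℕ → ℕ} (hb : ∀ v ∈ T, x ≤ b v ∧ b v < x + R) (hl : 1 ≤ l)
    (hfib : ∀ v ∈ T, ∀ v' ∈ T, v < v' → b v + v' = b v' + v → v' < v + l) (hx : Q + H + s + 3 ≤ x) (hN : x + R + s ≤ N)
    (hT0 : T.Nonempty) :
    μ.real {ω | sc (Wd D b) T (A ω) < T.card * τ ^ D.card / 2} ≤
      2 * ((D.card * D.card * l : ℕ) + 1) * Real.exp (-(T.card * τ ^ D.card / (16 * ((D.card * D.card * l : ℕ) + 1) ^ 2))) := by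
  classical
  obtain ⟨Δ, hΔ⟩ : ∃ Δ : ℕ, Δ = D.card * D.card * l := ⟨_, rfl⟩
  rw [← hΔ]
  have hval : ∀ v ∈ T, ∀ h ∈ D, 0 ≤ (b v : ℤ) - v + h ∧ 3 ≤ ((b v : ℤ) - v + h).toNat ∧ ((b v : ℤ) - v + h).toNat < N := by
    intro v hv h hh
    have h1 := mem_Ico.1 (hT hv)
    have h2 := hb v hv
    have h3 := abs_le.1 (hD h hh)
    omega
  have hpw : ∀ v ∈ T, τ ^ D.card ≤ pw μ A (Wd D b v) := by
    intro v hv
    unfold pw
    have h1 : τ ^ (Wd D b v).card ≤ ∏ a ∈ Wd D b v, μ.real {ω | a ∈ A ω} := by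
      rw [← prod_const]
      refine prod_le_prod (fun _ _ => hτ.le) (fun a ha => ?_)
      unfold Wd at ha
      rw [mem_image] at ha
      obtain ⟨h, hh, rfl⟩ := ha
      obtain ⟨_, h2, h3⟩ := hval v hv h hh
      exact hτN _ h2 h3
    refine le_trans ?_ h1
    exact pow_le_pow_of_le_one hτ.le hτ1 card_image_le
  obtain ⟨M, hM⟩ : ∃ M : ℝ, M = ∑ i ∈ T, pw μ A (Wd D b i) := ⟨_, rfl⟩
  have hMτ : (T.card : ℝ) * τ ^ D.card ≤ M := by
    rw [hM, ← nsmul_eq_mul]
    exact card_nsmul_le_sum _ _ _ hpw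
  have hTc : (0 : ℝ) < T.card := by exact_mod_cast hT0.card_pos
  have hM0 : 0 < M := lt_of_lt_of_le (by positivity) hMτ
  have hdep : ∀ v ∈ T, ∀ Y ⊆ T, (∀ v' ∈ Y, ¬ Disjoint (Wd D b v) (Wd D b v')) → Y.card ≤ Δ := by
    intro v hv Y hY hdis
    have h1 : Y ⊆ (D ×ˢ D).biUnion (fun w => T.filter (fun v' => (b v' : ℤ) - v' + w.2 = (b v : ℤ) - v + w.1)) := by
      intro v' hv'
      obtain ⟨a, ha, ha'⟩ := not_disjoint_iff.1 (hdis v' hv')
      unfold Wd at ha ha'
      rw [mem_image] at ha ha'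
      obtain ⟨h, hh, he⟩ := ha
      obtain ⟨h', hh', he'⟩ := ha'
      rw [mem_biUnion]
      refine ⟨(h, h'), mem_product.2 ⟨hh, hh'⟩, ?_⟩
      rw [mem_filter]
      refine ⟨hY hv', ?_⟩
      have h2 := (hval v hv h hh).1
      have h3 := (hval v' (hY hv') h' hh').1
      simp only
      omega
    refine (card_le_card h1).trans (card_biUnion_le.trans ?_)
    have h2 : ∀ w ∈ D ×ˢ D, (T.filter (fun v' => (b v' : ℤ) - v' + w.2 = (b v : ℤ) - v + w.1)).card ≤ l := by
      intro w _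
      refine card_window (fun v1 h3 v2 h4 h5 => ?_) hl
      rw [mem_filter] at h3 h4
      refine hfib v1 h3.1 v2 h4.1 h5 ?_
      have h6 := h3.2
      have h7 := h4.2
      omega
    refine (sum_le_sum h2).trans ?_
    rw [sum_const, card_product, smul_eq_mul, hΔ]
  have hΔ1 : (0 : ℝ) < (Δ : ℝ) + 1 := by positivity
  have h1 := conc hA T (Wd D b) Δ hdep (t := M / (2 * (Δ + 1))) (M := M) hM0 (by positivity) (by
    rw [div_le_iff₀ (by positivity)]
    have : (0 : ℝ) ≤ Δ := Nat.cast_nonneg _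
    nlinarith) (le_of_eq hM.symm)
  rw [← hM] at h1
  have h2 : {ω | sc (Wd D b) T (A ω) < T.card * τ ^ D.card / 2} ⊆
      {ω | ((Δ : ℝ) + 1) * (M / (2 * (Δ + 1))) < |sc (Wd D b) T (A ω) - M|} := by
    intro ω hω
    simp only [Set.mem_ofPred_eq] at hω ⊢
    have e1 : ((Δ : ℝ) + 1) * (M / (2 * (Δ + 1))) = M / 2 := by field_simp
    rw [e1, lt_abs]
    right
    linarith
  refine (measureReal_mono h2 (measure_ne_top _ _)).trans (h1.trans ?_)
  refine mul_le_mul_of_nonneg_left (Real.exp_le_exp.2 ?_) (by positivity)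
  have e2 : (M / (2 * ((Δ : ℝ) + 1))) ^ 2 / (4 * M) = M / (16 * (Δ + 1) ^ 2) := by
    field_simp
    ring
  rw [e2]
  refine neg_le_neg (div_le_div_of_nonneg_right hMτ (by positivity))

/-- The number of the successes. -/
noncomputable def suc (D : Finset ℤ) (Q x R : ℕ) (V : Finset ℕ) (S : Set ℕ) : ℝ :=
  sc (Wd D (fun v => pf S x R (v - Q))) (hit S 0 V id) S

/-- The bad event. -/
def Bad (D : Finset ℤ) (Q H x R l : ℕ) (V : Finset ℕ) (c : ℝ) (S : Set ℕ) : Prop :=
  (H ≤ rk S x (x + R) ∧ NoRun S x R l) ∧ suc D Q x R V S < c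

theorem bad_prob (hA : IndepElems μ A) {Q H x R l s N : ℕ} {D : Finset ℤ} (hD : ∀ h ∈ D, |h| ≤ s) {τ : ℝ} (hτ : 0 < τ)
    (hτ1 : τ ≤ 1) (hτN : ∀ a : ℕ, 3 ≤ a → a < N → τ ≤ μ.real {ω | a ∈ A ω}) {V : Finset ℕ} (hV : V ⊆ Ico Q (Q + H))
    (hQ : 3 ≤ Q) (hl : 1 ≤ l) (hx : 2 * (Q + H) + s + 3 ≤ x) (hRQ : R + s ≤ Q) (hN : x + R + s ≤ N) (hV0 : V.Nonempty) :
    μ.real {ω | Bad D Q H x R l V (V.card * τ ^ (D.card + 1) / 4) (A ω)} ≤ Real.exp (-(V.card * τ / 16)) +
      2 * ((D.card * D.card * l : ℕ) + 1) *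
        Real.exp (-(V.card * τ ^ (D.card + 1) / (32 * ((D.card * D.card * l : ℕ) + 1) ^ 2))) := by
  classical
  obtain ⟨Δ, hΔ⟩ : ∃ Δ : ℕ, Δ = D.card * D.card * l := ⟨_, rfl⟩
  rw [← hΔ]
  obtain ⟨I, hI⟩ : ∃ I : Finset ℕ, I = Ico Q (Q + H) ∪ Ico x (x + R) := ⟨_, rfl⟩
  obtain ⟨V3, hV3⟩ : ∃ V3 : Finset ℕ, V3 = Ico 3 N \ I := ⟨_, rfl⟩
  obtain ⟨c, hc⟩ : ∃ c : ℝ, c = V.card * τ ^ (D.card + 1) / 4 := ⟨_, rfl⟩
  rw [← hc]
  have hIV : Disjoint I V3 := by rw [hV3]; exact disjoint_sdiff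
  have hVlt : ∀ t ∈ V, 0 + id t < Q + H := fun t ht => by
    have := mem_Ico.1 (hV ht)
    simp only [id]
    omega
  have htail : μ.real {ω | ((hit (A ω) 0 V id).card : ℝ) ≤ V.card * τ / 2} ≤ Real.exp (-(V.card * τ / 16)) := by
    have h1 := filter_tail hA hτ hτN (lo := 3) (hi := Q + H) (T := V) (ρ := fun v => v - 3) le_rfl (by omega)
      (fun v hv w hw he => by
        have h2 := mem_Ico.1 (hV hv)
        have h3 := mem_Ico.1 (hV hw)
        simp only at he
        omega) (fun t ht => by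
        have := mem_Ico.1 (hV ht)
        omega) hV0
    refine le_trans (le_of_eq ?_) h1
    congr 1
    ext ω
    rw [Set.mem_ofPred_eq, Set.mem_ofPred_eq]
    have : hit (A ω) 0 V id = hit (A ω) 3 V (fun v => v - 3) := by
      ext t
      rw [mem_hit, mem_hit]
      refine and_congr_right (fun ht => ?_)
      have h2 := mem_Ico.1 (hV ht)
      rw [zero_add, id, show 3 + (t - 3) = t by omega]
    rw [this]
  have hsub1 : Ico Q (Q + H) ⊆ I := by rw [hI]; exact subset_union_left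
  have hsub2 : Ico x (x + R) ⊆ I := by rw [hI]; exact subset_union_right
  have hhit : Loc I (fun S => hit S 0 V id) := by
    refine Loc.mono (V := Ico Q (Q + H)) (fun S S' hS => ?_) hsub1
    ext t
    show t ∈ hit S 0 V id ↔ t ∈ hit S' 0 V id
    rw [mem_hit, mem_hit]
    refine and_congr_right (fun ht => ?_)
    rw [zero_add, id]
    exact hS t (hV ht)
  have hpf : Loc I (fun S => pf S x R) := (pf_loc x R).mono hsub2
  have hrk : Loc I (fun S => rk S x (x + R)) := (rk_loc x (x + R) (x + R) le_rfl).mono hsub2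
  have hnr : Loc I (fun S => NoRun S x R l) := (noRun_loc x R l).mono hsub2
  have hkey : μ.real {ω | ((V.card * τ / 2 < (hit (A ω ∩ I) 0 V id).card) ∧ H ≤ rk (A ω ∩ I) x (x + R) ∧ NoRun (A ω ∩ I) x R l) ∧
      H ≤ rk (A ω ∩ I) x (x + R) ∧ sc (Wd D (fun v => pf (A ω ∩ I) x R (v - Q))) (hit (A ω ∩ I) 0 V id) (A ω) < c} ≤
      2 * ((Δ : ℝ) + 1) * Real.exp (-(V.card * τ ^ (D.card + 1) / (32 * ((Δ : ℝ) + 1) ^ 2))) := by
    refine cond_le hA hIV (fun U => (V.card * τ / 2 < (hit U 0 V id).card) ∧ H ≤ rk U x (x + R) ∧ NoRun U x R l)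
      (fun U S => H ≤ rk U x (x + R) ∧ sc (Wd D (fun v => pf U x R (v - Q))) (hit U 0 V id) S < c) (fun U hU => ?_)
      (by positivity) (fun U hU hG => ?_)
    · intro S S' hS
      refine propext (and_congr_right (fun hH => ?_))
      have h1 : sc (Wd D (fun v => pf (U : Set ℕ) x R (v - Q))) (hit (U : Set ℕ) 0 V id) S =
          sc (Wd D (fun v => pf (U : Set ℕ) x R (v - Q))) (hit (U : Set ℕ) 0 V id) S' := by
        unfold sc
        congr 2
        ext v
        simp only [mem_filter]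
        refine and_congr_right (fun hv => ?_)
        refine forall₂_congr (fun a ha => hS a ?_)
        rw [mem_hit] at hv
        have h2 := mem_Ico.1 (hV hv.1)
        obtain ⟨p1, p2, _, _⟩ := pf_at (U := (U : Set ℕ)) (x := x) (R := R) (j := v - Q) (by omega)
        unfold Wd at ha
        rw [mem_image] at ha
        obtain ⟨h, hh, rfl⟩ := ha
        have h3 := abs_le.1 (hD h hh)
        rw [hV3, hI, Finset.mem_sdiff, mem_union, mem_Ico, mem_Ico, mem_Ico]
        beta_reduce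
        omega
      rw [h1]
    · obtain ⟨hG1, hG2, hG3⟩ := hG
      obtain ⟨T, hTd⟩ : ∃ T : Finset ℕ, T = hit (U : Set ℕ) 0 V id := ⟨_, rfl⟩
      have hTsub : T ⊆ V := by
        intro t ht
        rw [hTd, mem_hit] at ht
        exact ht.1
      have hV0r : (0 : ℝ) < V.card := by exact_mod_cast hV0.card_pos
      have hT0 : T.Nonempty := by
        rw [← card_pos]
        have : (0 : ℝ) < T.card := by
          rw [hTd]
          refine lt_trans ?_ hG1
          positivity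
        exact_mod_cast this
      have hat : ∀ v ∈ T, At (U : Set ℕ) x R (v - Q) (pf (U : Set ℕ) x R (v - Q)) := by
        intro v hv
        have h2 := mem_Ico.1 (hV (hTsub hv))
        exact pf_at (by omega)
      have h1 := third hA hD hτ hτ1 hτN (T := T) (hTsub.trans hV) (b := fun v => pf (U : Set ℕ) x R (v - Q)) (x := x) (R := R)
        (l := l) (fun v hv => ⟨(hat v hv).1, (hat v hv).2.1⟩) hl (fun v hv v' hv' hlt he => by
          have h2 := mem_Ico.1 (hV (hTsub hv))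
          have h3 := mem_Ico.1 (hV (hTsub hv'))
          beta_reduce at he
          have h4 := run_bound hG3 (hat v hv) (hat v' hv') (by omega) (by omega)
          omega) (by omega) hN hT0
      rw [← hΔ] at h1
      rw [← hTd] at hG1 ⊢
      have hle : (V.card : ℝ) * τ ^ (D.card + 1) / 4 ≤ T.card * τ ^ D.card / 2 := by
        have h2 : (V.card : ℝ) * τ ^ (D.card + 1) / 4 = V.card * τ / 2 * τ ^ D.card / 2 := by
          rw [pow_succ]
          ring
        rw [h2]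
        have h3 : (V.card : ℝ) * τ / 2 * τ ^ D.card ≤ T.card * τ ^ D.card := mul_le_mul_of_nonneg_right hG1.le (by positivity)
        linarith
      refine (measureReal_mono (fun ω hω => ?_) (measure_ne_top _ _)).trans (h1.trans ?_)
      · rw [Set.mem_ofPred_eq] at hω ⊢
        rw [hc] at hω
        exact lt_of_lt_of_le hω.2 hle
      · refine mul_le_mul_of_nonneg_left (Real.exp_le_exp.2 ?_) (by positivity)
        refine neg_le_neg ?_
        rw [div_le_div_iff₀ (by positivity) (by positivity)]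
        have h5 : 0 < ((Δ : ℝ) + 1) ^ 2 := by positivity
        nlinarith
  refine le_trans (measureReal_mono (s₂ := {ω | ((hit (A ω) 0 V id).card : ℝ) ≤ V.card * τ / 2} ∪
    {ω | ((V.card * τ / 2 < (hit (A ω ∩ I) 0 V id).card) ∧ H ≤ rk (A ω ∩ I) x (x + R) ∧ NoRun (A ω ∩ I) x R l) ∧
      H ≤ rk (A ω ∩ I) x (x + R) ∧ sc (Wd D (fun v => pf (A ω ∩ I) x R (v - Q))) (hit (A ω ∩ I) 0 V id) (A ω) < c}) (fun ω hω => ?_) (measure_ne_top _ _))
    ((measureReal_union_le _ _).trans (add_le_add htail hkey))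
  rw [Set.mem_ofPred_eq] at hω
  obtain ⟨⟨h1, h2⟩, h3⟩ := hω
  have e0 : ∀ a ∈ I, (a ∈ A ω ↔ a ∈ A ω ∩ I) := fun a ha => ⟨fun h => ⟨h, ha⟩, fun h => h.1⟩
  have e1 : hit (A ω) 0 V id = hit (A ω ∩ I) 0 V id := hhit _ _ e0
  have e2 : pf (A ω) x R = pf (A ω ∩ I) x R := hpf _ _ e0
  have e3 : rk (A ω) x (x + R) = rk (A ω ∩ I) x (x + R) := hrk _ _ e0
  have e4 : NoRun (A ω) x R l = NoRun (A ω ∩ I) x R l := hnr _ _ e0
  rcases le_or_gt ((hit (A ω) 0 V id).card : ℝ) (V.card * τ / 2) with h4 | h4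
  · exact Or.inl h4
  · refine Or.inr ?_
    rw [Set.mem_ofPred_eq]
    unfold suc at h3
    rw [e1] at h4
    rw [e3] at h1
    rw [e4] at h2
    rw [e1, e2] at h3
    exact ⟨⟨h4, h1, h2⟩, h1, h3⟩

end Pool.Agent.Q197.TQ
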