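import Pool.Agent.Q197.TQ.Layers
import Pool.Agent.Q197.TQ.Prob
import Pool.Agent.Q197.IT.Upper

/-!
# All blocks, all layers, all positions
-/

set_option autoImplicit false
set_option linter.unusedSectionVars false

namespace Pool.Agent.Q197.TQ

open Finset Filter MeasureTheory ProbabilityTheory Pool.Agent.Q197.FM Pool.Agent.Q197.CI Pool.Agent.Q197.BH
  Pool.Agent.Q120.ET Pool.Agent.Q120.MF Pool.Agent.Q197.IT
open scoped Topology

variable {Ω : Type*} [MeasurableSpace Ω] {μ : Measure Ω} [IsProbabilityMeasure μ] {A : Ω → Set ℕ}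

theorem hit_range (S : Set ℕ) (x R : ℕ) : (hit S x (range R) id).card = rk S x (x + R) := by
  classical
  unfold rk
  have h1 : (Ico x (x + R)).filter (fun j => j ∈ S) = (hit S x (range R) id).image (fun t => x + t) := by
    ext j
    rw [mem_filter, mem_Ico, mem_image]
    constructor
    · rintro ⟨⟨h2, h3⟩, h4⟩
      refine ⟨j - x, ?_, by omega⟩
      rw [mem_hit, mem_range, id, show x + (j - x) = j by omega]
      exact ⟨by omega, h4⟩
    · rintro ⟨t, ht, rfl⟩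
      rw [mem_hit, mem_range, id] at ht
      exact ⟨⟨by omega, by omega⟩, ht.2⟩
  rw [h1, card_image_of_injective _ (add_right_injective x)]

theorem low_rank (hA : IndepElems μ A) {x R H N : ℕ} {τ : ℝ} (hτ : 0 < τ)
    (hτN : ∀ a : ℕ, 3 ≤ a → a < N → τ ≤ μ.real {ω | a ∈ A ω}) (hx : 3 ≤ x) (hN : x + R ≤ N) (hR : 1 ≤ R)
    (hH : (H : ℝ) ≤ R * τ / 2) : μ.real {ω | rk (A ω) x (x + R) < H} ≤ Real.exp (-(R * τ / 16)) := by
  have h1 := filter_tail hA hτ hτN (lo := x) (hi := x + R) (T := range R) (ρ := id) hx hN (Set.injOn_id _)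
    (fun t ht => by rw [mem_range] at ht; simp only [id]; omega) ⟨0, mem_range.2 hR⟩
  rw [card_range] at h1
  refine le_trans (measureReal_mono (fun ω hω => ?_) (measure_ne_top _ _)) h1
  rw [Set.mem_ofPred_eq] at hω ⊢
  rw [hit_range]
  have : (rk (A ω) x (x + R) : ℝ) < H := by exact_mod_cast hω
  linarith

theorem run_prob (hA : IndepElems μ A) {x R l : ℕ} {σ : ℝ} (hl : 1 ≤ l)
    (hσx : ∀ a : ℕ, x ≤ a → μ.real {ω | a ∈ A ω} ≤ σ) : μ.real {ω | ¬ NoRun (A ω) x R l} ≤ R * σ ^ l := by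
  have hsub : {ω | ¬ NoRun (A ω) x R l} ⊆ ⋃ b ∈ Ico x (x + R), {ω | ∀ a ∈ Ico b (b + l), a ∈ A ω} := by
    intro ω hω
    rw [Set.mem_ofPred_eq] at hω
    unfold NoRun at hω
    push Not at hω
    obtain ⟨b, h1, h2, h3⟩ := hω
    simp only [Set.mem_iUnion, exists_prop]
    refine ⟨b, mem_Ico.2 ⟨h1, by omega⟩, fun a ha => ?_⟩
    rw [mem_Ico] at ha
    have := h3 (a - b) (by omega)
    rwa [show b + (a - b) = a by omega] at this
  refine (measureReal_mono hsub (measure_ne_top _ _)).trans ((measureReal_biUnion_finset_le _ _).trans ?_)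
  refine (sum_le_card_nsmul _ _ (σ ^ l) (fun b hb => ?_)).trans (le_of_eq ?_)
  · rw [mem_Ico] at hb
    rw [hA.prob_all]
    have h1 : ∏ a ∈ Ico b (b + l), μ.real {ω | a ∈ A ω} ≤ ∏ _a ∈ Ico b (b + l), σ :=
      prod_le_prod (fun _ _ => measureReal_nonneg) (fun a ha => hσx a (by rw [mem_Ico] at ha; omega))
    rwa [prod_const, Nat.card_Ico, Nat.add_sub_cancel_left] at h1
  · rw [Nat.card_Ico, Nat.add_sub_cancel_left, nsmul_eq_mul]

/-- The length of the runs. -/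
noncomputable def ll (n : ℕ) : ℕ := ⌈6 * Real.log n⌉₊

/-- The length of the windows of positions. -/
noncomputable def RR (n : ℕ) : ℕ := hh n * ll n

/-- The probability from below. -/
noncomputable def ta (n : ℕ) : ℝ := 1 / (3 * Real.log n)

theorem log_pow_small (C : ℝ) (k : ℕ) {s : ℝ} (hs : 0 < s) : ∀ᶠ n : ℕ in atTop, C * Real.log n ^ k ≤ (n : ℝ) ^ s := by
  have h1 : Tendsto (fun n : ℕ => Real.log (n : ℝ) ^ (k : ℝ) / (n : ℝ) ^ s) atTop (𝓝 0) :=
    ((isLittleO_log_rpow_rpow_atTop (k : ℝ) hs).tendsto_div_nhds_zero).comp tendsto_natCast_atTop_atTop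
  filter_upwards [h1.eventually_lt_const (show (0 : ℝ) < 1 / (|C| + 1) by positivity), eventually_gt_atTop 1] with n h2 h3
  have hn : (0 : ℝ) < n := by exact_mod_cast (by omega : 0 < n)
  have hlog : 0 ≤ Real.log (n : ℝ) := Real.log_natCast_nonneg n
  have hp : 0 < (n : ℝ) ^ s := Real.rpow_pos_of_pos hn _
  rw [div_lt_iff₀ hp, Real.rpow_natCast] at h2
  have h4 : 0 ≤ Real.log (n : ℝ) ^ k := by positivity
  have hC := le_abs_self C
  calc C * Real.log n ^ k ≤ (|C| + 1) * Real.log n ^ k := mul_le_mul_of_nonneg_right (by linarith) h4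
    _ ≤ (|C| + 1) * (1 / (|C| + 1) * (n : ℝ) ^ s) := mul_le_mul_of_nonneg_left h2.le (by positivity)
    _ = (n : ℝ) ^ s := by field_simp

theorem hh_facts : ∀ᶠ n : ℕ in atTop, 1 ≤ hh n ∧ (hh n : ℝ) ≤ (n : ℝ) ^ (0.95 : ℝ) ∧ (n : ℝ) ^ (0.95 : ℝ) ≤ 2 * hh n := by
  filter_upwards [(pow_top (s := 0.95) (by norm_num)).eventually_ge_atTop 2] with n h1
  have h2 : (n : ℝ) ^ (0.95 : ℝ) < hh n + 1 := Nat.lt_floor_add_one _
  have h3 : (hh n : ℝ) ≤ (n : ℝ) ^ (0.95 : ℝ) := Nat.floor_le (by linarith)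
  refine ⟨?_, h3, by linarith⟩
  have : (1 : ℝ) < hh n + 1 := by linarith
  have : 1 < hh n + 1 := by exact_mod_cast this
  omega

theorem ll_facts : ∀ᶠ n : ℕ in atTop, 1 ≤ ll n ∧ 6 * Real.log n ≤ ll n ∧ (ll n : ℝ) ≤ 7 * Real.log n := by
  filter_upwards [log_nat_top.eventually_ge_atTop 1] with n h1
  have h2 : 6 * Real.log n ≤ ll n := Nat.le_ceil _
  have h3 : (ll n : ℝ) < 6 * Real.log n + 1 := Nat.ceil_lt_add_one (by linarith)
  refine ⟨?_, h2, by linarith⟩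
  have : (0 : ℝ) < ll n := by linarith
  have : 0 < ll n := by exact_mod_cast this
  omega

theorem num (r : ℕ) : ∀ᶠ n : ℕ in atTop, ∀ t : ℝ, (n : ℝ) ^ (0.02 : ℝ) ≤ t →
    Real.exp (-(t * ta n / 16)) + 2 * ((r * r * ll n : ℕ) + 1) *
        Real.exp (-(t * ta n ^ (r + 1) / (32 * ((r * r * ll n : ℕ) + 1) ^ 2))) + Real.exp (-(RR n * ta n / 16)) +
      RR n * (2 / Real.log n) ^ ll n ≤ (n : ℝ) ^ (-8 : ℝ) := by
  obtain ⟨C, hC⟩ : ∃ C : ℝ, C = 11 * (32 * (8 * ((r : ℝ) * r + 1)) ^ 2 * 3 ^ (r + 1)) := ⟨_, rfl⟩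
  filter_upwards [hh_facts, ll_facts, log_pow_small (11 * 48) 2 (s := 0.02) (by norm_num), log_pow_small C (r + 4) (s := 0.02) (by norm_num),
    log_pow_small 176 1 (s := 0.95) (by norm_num), log_nat_top.eventually_ge_atTop 1, loglog_nat_top.eventually_ge_atTop 4,
    log_pow_small (16 * ((r : ℝ) * r + 1)) 1 (s := 1) (by norm_num), log_pow_small 7 1 (s := 0.05) (by norm_num),
    eventually_ge_atTop 8]
    with n h1 h2 h3 h4 h5 h6 h7 h8 h9 h10 t ht
  obtain ⟨hh1, hh2, hh3⟩ := h1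
  obtain ⟨l1, l2, l3⟩ := h2
  obtain ⟨L, hL⟩ : ∃ L : ℝ, L = Real.log n := ⟨_, rfl⟩
  rw [← hL] at h3 h4 h5 h6 h7 h8 h9 l2 l3 ⊢
  rw [pow_one] at h5 h8 h9
  have hn8 : (8 : ℝ) ≤ n := by exact_mod_cast h10
  have hn0 : (0 : ℝ) < n := lt_of_lt_of_le (by norm_num) hn8
  have hL0 : 0 < L := by linarith
  have hr0 : (0 : ℝ) ≤ (r : ℝ) * r := by positivity
  have hta : ta n = 1 / (3 * L) := by unfold ta; rw [hL]
  have hexp : ∀ y : ℝ, 11 * L ≤ y → Real.exp (-y) ≤ (n : ℝ) ^ (-11 : ℝ) := by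
    intro y hy
    rw [Real.rpow_def_of_pos hn0, ← hL]
    refine Real.exp_le_exp.2 ?_
    linarith
  -- the first term
  have e1 : Real.exp (-(t * ta n / 16)) ≤ (n : ℝ) ^ (-11 : ℝ) := by
    refine hexp _ ?_
    rw [hta, mul_one_div, div_div, le_div_iff₀ (by positivity)]
    refine le_trans (le_of_eq ?_) (h3.trans ht)
    ring
  -- the second term
  obtain ⟨Δ, hΔ⟩ : ∃ Δ : ℝ, Δ = ((r * r * ll n : ℕ) : ℝ) + 1 := ⟨_, rfl⟩
  rw [← hΔ]
  have hΔ1 : Δ ≤ 8 * ((r : ℝ) * r + 1) * L := by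
    rw [hΔ]
    push_cast
    nlinarith
  have hΔ0 : 0 < Δ := by rw [hΔ]; positivity
  have e2 : Real.exp (-(t * ta n ^ (r + 1) / (32 * Δ ^ 2))) ≤ (n : ℝ) ^ (-11 : ℝ) := by
    refine hexp _ ?_
    rw [hta, div_pow, one_pow, mul_one_div, div_div, le_div_iff₀ (by positivity)]
    have e3 : Δ ^ 2 ≤ (8 * ((r : ℝ) * r + 1) * L) ^ 2 := pow_le_pow_left₀ hΔ0.le hΔ1 2
    calc 11 * L * ((3 * L) ^ (r + 1) * (32 * Δ ^ 2)) ≤ 11 * L * ((3 * L) ^ (r + 1) * (32 * (8 * ((r : ℝ) * r + 1) * L) ^ 2)) := by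
          refine mul_le_mul_of_nonneg_left (mul_le_mul_of_nonneg_left (by linarith) (by positivity)) (by positivity)
      _ = C * L ^ (r + 4) := by
          rw [hC, mul_pow 3 L]
          ring
      _ ≤ t := h4.trans ht
  -- the third term
  have e3 : Real.exp (-(RR n * ta n / 16)) ≤ (n : ℝ) ^ (-11 : ℝ) := by
    refine hexp _ ?_
    unfold RR
    rw [hta]
    push_cast
    rw [mul_one_div, div_div, le_div_iff₀ (by positivity)]
    have e4 : 88 * L ≤ hh n := by linarith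
    have e5 : (88 * L) * (6 * L) ≤ hh n * ll n := mul_le_mul e4 l2 (by positivity) (Nat.cast_nonneg _)
    nlinarith
  -- the fourth term
  have e4 : (RR n : ℝ) * (2 / L) ^ ll n ≤ (n : ℝ) ^ (-11 : ℝ) := by
    have e5 : (RR n : ℝ) ≤ n := by
      unfold RR
      push_cast
      have e6 : (n : ℝ) = (n : ℝ) ^ (0.95 : ℝ) * (n : ℝ) ^ (0.05 : ℝ) := by
        rw [← Real.rpow_add hn0]
        norm_num
      rw [e6]
      exact mul_le_mul hh2 (l3.trans h9) (Nat.cast_nonneg _) (by positivity)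
    have e7 : (2 / L) ^ ll n ≤ (n : ℝ) ^ (-12 : ℝ) := by
      have hl2 := log_two_lt
      rw [← Real.exp_log (show 0 < 2 / L by positivity), ← Real.exp_nat_mul, Real.log_div (by norm_num) hL0.ne',
        Real.rpow_def_of_pos hn0, ← hL]
      refine Real.exp_le_exp.2 ?_
      have e8 : Real.log 2 - Real.log L ≤ -3 := by linarith
      have e9 : (ll n : ℝ) * (Real.log 2 - Real.log L) ≤ ll n * (-3) := mul_le_mul_of_nonneg_left e8 (Nat.cast_nonneg _)
      linarith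
    calc (RR n : ℝ) * (2 / L) ^ ll n ≤ n * (n : ℝ) ^ (-12 : ℝ) := mul_le_mul e5 e7 (by positivity) hn0.le
      _ = (n : ℝ) ^ (-11 : ℝ) := by
          nth_rw 1 [← Real.rpow_one (n : ℝ)]
          rw [← Real.rpow_add hn0]
          norm_num
  obtain ⟨w, hw⟩ : ∃ w : ℝ, w = (n : ℝ) ^ (-11 : ℝ) := ⟨_, rfl⟩
  have hw0 : 0 < w := by rw [hw]; positivity
  rw [← hw] at e1 e2 e3 e4
  have e5 : 2 * Δ * Real.exp (-(t * ta n ^ (r + 1) / (32 * Δ ^ 2))) ≤ 2 * Δ * w := mul_le_mul_of_nonneg_left e2 (by positivity)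
  have e6 : 2 * Δ ≤ n := by
    rw [Real.rpow_one] at h8
    nlinarith
  have e7 : (n : ℝ) ^ (-8 : ℝ) = (n : ℝ) ^ (3 : ℝ) * w := by
    rw [hw, ← Real.rpow_add hn0]
    norm_num
  rw [e7]
  have e8 : (n : ℝ) + 3 ≤ (n : ℝ) ^ (3 : ℝ) := by
    have : (n : ℝ) ^ (3 : ℝ) = (n : ℝ) ^ (3 : ℕ) := by
      rw [← Real.rpow_natCast]
      norm_num
    rw [this]
    have f1 : (8 : ℝ) * 8 ≤ n * n := mul_le_mul hn8 hn8 (by norm_num) hn0.le
    have f2 : (8 : ℝ) * 8 * n ≤ n * n * n := mul_le_mul_of_nonneg_right f1 hn0.le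
    have f3 : (n : ℝ) ^ 3 = n * n * n := by ring
    rw [f3]
    linarith
  have e9 : 2 * Δ * w ≤ n * w := mul_le_mul_of_nonneg_right e6 hw0.le
  have e10 : ((n : ℝ) + 3) * w ≤ (n : ℝ) ^ (3 : ℝ) * w := mul_le_mul_of_nonneg_right e8 hw0.le
  linarith
where
  log_two_lt : Real.log 2 < 1 := by
    have := Real.log_two_lt_d9
    linarith

/-- The admissible parameters. -/
def Adm (s n b i x : ℕ) : Prop := (n : ℝ) ^ (0.02 : ℝ) ≤ (VV n b i).card ∧ RR n + s ≤ b * hh n ∧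
  2 * (b * hh n + hh n) + s + 3 ≤ x ∧ b * hh n ≤ n

/-- Everything is fine. -/
def Fine (D : Finset ℤ) (n b i x : ℕ) (S : Set ℕ) : Prop :=
  (hh n ≤ rk S x (x + RR n) ∧ NoRun S x (RR n) (ll n)) ∧
    (VV n b i).card * ta n ^ (D.card + 1) / 4 ≤ suc D (b * hh n) x (RR n) (VV n b i) S

theorem all_fine (hA : IsCramer μ A) (D : Finset ℤ) {s : ℕ} (hD : ∀ h ∈ D, |h| ≤ s) : ∀ᵐ ω ∂μ, ∀ᶠ n : ℕ in atTop,
    ∀ b ≤ n, ∀ i < n, ∀ x ≤ n ^ 2, Adm s n b i x → Fine D n b i x (r3 A ω) := by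
  classical
  obtain ⟨E, hE⟩ : ∃ E : ℕ → Set Ω, E = fun n => ⋃ w ∈ ((range (n + 1) ×ˢ range n) ×ˢ range (n ^ 2 + 1)).filter
      (fun w : (ℕ × ℕ) × ℕ => Adm s n w.1.1 w.1.2 w.2), {ω | ¬ Fine D n w.1.1 w.1.2 w.2 (r3 A ω)} := ⟨_, rfl⟩
  have hprob : ∀ᶠ n : ℕ in atTop, μ.real (E n) ≤ (n : ℝ) ^ (-2 : ℝ) := by
    filter_upwards [num D.card, hh_facts, ll_facts, eventually_ge_atTop 8, log_nat_top.eventually_ge_atTop 2,
      pow_small (s := 0.5) (t := 0.95) 2 (by norm_num)] with n h1 h2 h3 h4 h5 h5'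
    obtain ⟨hh1, hh2, hh3⟩ := h2
    obtain ⟨l1, l2, l3⟩ := h3
    have hn8 : (8 : ℝ) ≤ n := by exact_mod_cast h4
    have hn0 : (0 : ℝ) < n := lt_of_lt_of_le (by norm_num) hn8
    have hL0 : 0 < Real.log (n : ℝ) := by linarith
    have hτ0 : 0 < ta n := by unfold ta; positivity
    have hτ1 : ta n ≤ 1 := by
      unfold ta
      rw [div_le_one (by positivity)]
      linarith
    have hτN : ∀ a : ℕ, 3 ≤ a → a < n ^ 3 → ta n ≤ μ.real {ω | a ∈ r3 A ω} := by
      intro a ha haN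
      rw [r3_prob hA ha]
      unfold ta
      have ha0 : (3 : ℝ) ≤ a := by exact_mod_cast ha
      have h6 : 0 < Real.log (a : ℝ) := Real.log_pos (by linarith)
      refine one_div_le_one_div_of_le h6 ?_
      have h7 : (a : ℝ) ≤ (n : ℝ) ^ 3 := by exact_mod_cast haN.le
      have h8 := Real.log_le_log (by linarith) h7
      rw [Real.log_pow] at h8
      exact_mod_cast h8
    rw [hE]
    refine (measureReal_biUnion_finset_le _ _).trans ?_
    have hev : ∀ w ∈ ((range (n + 1) ×ˢ range n) ×ˢ range (n ^ 2 + 1)).filter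
        (fun w : (ℕ × ℕ) × ℕ => Adm s n w.1.1 w.1.2 w.2), μ.real {ω | ¬ Fine D n w.1.1 w.1.2 w.2 (r3 A ω)} ≤ (n : ℝ) ^ (-8 : ℝ) := by
      intro w hw
      rw [mem_filter, mem_product, mem_product, mem_range, mem_range, mem_range] at hw
      obtain ⟨⟨⟨hb, hi⟩, hx⟩, hadm⟩ := hw
      obtain ⟨b, hbd⟩ : ∃ b, b = w.1.1 := ⟨_, rfl⟩
      obtain ⟨i, hid⟩ : ∃ i, i = w.1.2 := ⟨_, rfl⟩
      obtain ⟨x, hxd⟩ : ∃ x, x = w.2 := ⟨_, rfl⟩
      rw [← hbd, ← hid, ← hxd] at hadm ⊢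
      rw [← hbd] at hb
      rw [← hid] at hi
      rw [← hxd] at hx
      obtain ⟨a1, a2, a3, a4⟩ := hadm
      obtain ⟨Q, hQ⟩ : ∃ Q, Q = b * hh n := ⟨_, rfl⟩
      rw [← hQ] at a2 a3 a4
      have hRR1 : 1 ≤ RR n := by
        unfold RR
        exact Nat.mul_pos hh1 l1
      have hVsub : VV n b i ⊆ Ico Q (Q + hh n) := by
        unfold VV
        refine (filter_subset _ _).trans (le_of_eq ?_)
        rw [hQ, add_mul, one_mul]
      have hRRhh : hh n ≤ RR n := by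
        unfold RR
        exact Nat.le_mul_of_pos_right _ l1
      have hsqrt : (n : ℝ) ^ (0.5 : ℝ) ≤ hh n := by linarith
      have hhn2 : n ≤ hh n * hh n := by
        have e1 : (n : ℝ) ^ (0.5 : ℝ) * (n : ℝ) ^ (0.5 : ℝ) = n := by
          rw [← Real.rpow_add hn0]
          norm_num
        have e2 : (n : ℝ) ≤ hh n * hh n := by
          rw [← e1]
          exact mul_le_mul hsqrt hsqrt (by positivity) (Nat.cast_nonneg _)
        exact_mod_cast e2
      have hh3' : 3 ≤ hh n := by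
        by_contra hcon
        have : hh n * hh n ≤ 2 * 2 := Nat.mul_le_mul (by omega) (by omega)
        omega
      have hV0 : (VV n b i).Nonempty := by
        rw [← card_pos]
        have : (0 : ℝ) < (VV n b i).card := lt_of_lt_of_le (by positivity) a1
        exact_mod_cast this
      have hxN : x + RR n + s ≤ n ^ 3 := by
        have e1 : x ≤ n ^ 2 := by omega
        have e2 : RR n + s ≤ n := a2.trans a4
        nlinarith
      have hbad := bad_prob (r3_indep hA) hD hτ0 hτ1 hτN hVsub (Q := Q) (H := hh n) (x := x) (R := RR n) (l := ll n) (by omega) l1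
        a3 a2 hxN hV0
      have hHr : (hh n : ℝ) ≤ RR n * ta n / 2 := by
        unfold RR ta
        push_cast
        rw [le_div_iff₀ (by norm_num), mul_one_div, le_div_iff₀ (by positivity)]
        have : (0 : ℝ) ≤ hh n := Nat.cast_nonneg _
        nlinarith
      have hlow := low_rank (r3_indep hA) (x := x) (R := RR n) (H := hh n) (N := n ^ 3) hτ0 hτN (by omega) (by omega) hRR1 hHr
      have hrun := run_prob (r3_indep hA) (x := x) (R := RR n) (l := ll n) (σ := 2 / Real.log n) l1 (fun a ha => by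
        have ha3 : 3 ≤ a := by omega
        rw [r3_prob hA ha3]
        have hah : hh n ≤ a := by omega
        have e1 : (1 : ℝ) / 2 * Real.log n ≤ Real.log a := by
          rw [← Real.log_rpow hn0]
          refine Real.log_le_log (by positivity) ?_
          have : (hh n : ℝ) ≤ a := by exact_mod_cast hah
          refine le_trans ?_ (hsqrt.trans this)
          norm_num
        rw [div_le_div_iff₀ (by linarith) hL0]
        linarith)
      have hsub : {ω | ¬ Fine D n b i x (r3 A ω)} ⊆ {ω | Bad D Q (hh n) x (RR n) (ll n) (VV n b i)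
          ((VV n b i).card * ta n ^ (D.card + 1) / 4) (r3 A ω)} ∪ ({ω | rk (r3 A ω) x (x + RR n) < hh n} ∪
            {ω | ¬ NoRun (r3 A ω) x (RR n) (ll n)}) := by
        intro ω hω
        rw [Set.mem_ofPred_eq] at hω
        by_cases c1 : hh n ≤ rk (r3 A ω) x (x + RR n)
        · by_cases c2 : NoRun (r3 A ω) x (RR n) (ll n)
          · refine Or.inl ⟨⟨c1, c2⟩, ?_⟩
            by_contra hcon
            push Not at hcon
            rw [hQ] at hcon
            exact hω ⟨⟨c1, c2⟩, hcon⟩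
          · exact Or.inr (Or.inr c2)
        · exact Or.inr (Or.inl (by rw [Set.mem_ofPred_eq]; omega))
      refine (measureReal_mono hsub (measure_ne_top _ _)).trans ((measureReal_union_le _ _).trans ?_)
      have h6 := h1 _ a1
      have h7 := measureReal_union_le (μ := μ) {ω | rk (r3 A ω) x (x + RR n) < hh n} {ω | ¬ NoRun (r3 A ω) x (RR n) (ll n)}
      linarith
    refine (sum_le_card_nsmul _ _ _ hev).trans ?_
    rw [nsmul_eq_mul]
    have h6 : (((((range (n + 1) ×ˢ range n) ×ˢ range (n ^ 2 + 1)).filter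
        (fun w : (ℕ × ℕ) × ℕ => Adm s n w.1.1 w.1.2 w.2)).card : ℕ) : ℝ) ≤ (n : ℝ) ^ (6 : ℝ) := by
      have e1 := card_filter_le ((range (n + 1) ×ˢ range n) ×ˢ range (n ^ 2 + 1)) (fun w : (ℕ × ℕ) × ℕ => Adm s n w.1.1 w.1.2 w.2)
      rw [card_product, card_product, card_range, card_range, card_range] at e1
      have e2 : (n + 1) * n * (n ^ 2 + 1) ≤ n ^ 6 := by
        have e3 : n + 1 ≤ n ^ 2 := by nlinarith
        have e4 : n ^ 2 + 1 ≤ n ^ 3 := by nlinarith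
        calc (n + 1) * n * (n ^ 2 + 1) ≤ n ^ 2 * n * n ^ 3 := Nat.mul_le_mul (Nat.mul_le_mul_right n e3) e4
          _ = n ^ 6 := by ring
      have e5 : (n : ℝ) ^ (6 : ℝ) = (n : ℝ) ^ (6 : ℕ) := by
        rw [← Real.rpow_natCast]
        norm_num
      rw [e5]
      exact_mod_cast e1.trans e2
    refine (mul_le_mul_of_nonneg_right h6 (by positivity)).trans (le_of_eq ?_)
    rw [← Real.rpow_add hn0]
    norm_num
  have hbc : ∀ᵐ ω ∂μ, ∀ᶠ n in atTop, ω ∉ E n :=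
    Pool.Agent.Q197.CI.bc hprob (Real.summable_nat_rpow.2 (by norm_num))
  filter_upwards [hbc] with ω h1
  filter_upwards [h1] with n h2 b hb i hi x hx hadm
  by_contra hcon
  apply h2
  rw [hE]
  simp only [Set.mem_iUnion, exists_prop]
  refine ⟨((b, i), x), ?_, hcon⟩
  rw [mem_filter, mem_product, mem_product, mem_range, mem_range, mem_range]
  exact ⟨⟨⟨by simp only; omega, hi⟩, by simp only; omega⟩, hadm⟩

end Pool.Agent.Q197.TQ
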